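import Pool.Agent.N890.LP.Stm0

/-!
Project LP (helper890): algebraically independent power series with given constant coefficients.
-/

set_option autoImplicit false

namespace Pool.Agent.N890.LP.ALI

open Pool.Agent.N890.LP

/-- the absolute value `2^(-order x)` on the Laurent series -/
noncomputable def vv (F : Type) [Field F] : AbsoluteValue (LaurentSeries F) ℝ := by
  classical
  exact
  { toFun := fun x => if x = 0 then 0 else (2 : ℝ) ^ (-HahnSeries.order x)
    map_mul' := by
      intro x y
      by_cases hx : x = 0
      · simp [hx]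
      by_cases hy : y = 0
      · simp [hy]
      have hxy : x * y ≠ 0 := mul_ne_zero hx hy
      simp only [hx, hy, hxy, if_false]
      rw [HahnSeries.order_mul hx hy, neg_add, zpow_add₀ (by norm_num)]
    nonneg' := by
      intro x
      split_ifs
      · exact le_rfl
      · positivity
    eq_zero' := by
      intro x
      constructor
      · intro h
        by_contra hx
        rw [if_neg hx] at h
        have : (0 : ℝ) < 2 ^ (-HahnSeries.order x) := by positivity
        linarith
      · intro h
        rw [if_pos h]
    add_le' := by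
      intro x y
      by_cases hx : x = 0
      · simp [hx]
      by_cases hy : y = 0
      · simp [hy]
      by_cases hxy : x + y = 0
      · rw [if_pos hxy, if_neg hx, if_neg hy]
        positivity
      rw [if_neg hx, if_neg hy, if_neg hxy]
      have hm := HahnSeries.min_order_le_order_add hxy
      rcases le_total (HahnSeries.order x) (HahnSeries.order y) with h | h
      · rw [min_eq_left h] at hm
        have h1 : (2 : ℝ) ^ (-HahnSeries.order (x + y)) ≤ 2 ^ (-HahnSeries.order x) :=
          zpow_le_zpow_right₀ (by norm_num) (by omega)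
        have h2 : (0 : ℝ) ≤ 2 ^ (-HahnSeries.order y) := by positivity
        linarith
      · rw [min_eq_right h] at hm
        have h1 : (2 : ℝ) ^ (-HahnSeries.order (x + y)) ≤ 2 ^ (-HahnSeries.order y) :=
          zpow_le_zpow_right₀ (by norm_num) (by omega)
        have h2 : (0 : ℝ) ≤ 2 ^ (-HahnSeries.order x) := by positivity
        linarith }

theorem vv_of_ne {F : Type} [Field F] {x : LaurentSeries F} (hx : x ≠ 0) :
    vv F x = (2 : ℝ) ^ (-HahnSeries.order x) := by
  classical
  show (if x = 0 then (0 : ℝ) else (2 : ℝ) ^ (-HahnSeries.order x)) = _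
  rw [if_neg hx]

theorem coeff_of_vv {F : Type} [Field F] {x : LaurentSeries F} (h : vv F x < 1) {i : ℤ}
    (hi : i ≤ 0) : x.coeff i = 0 := by
  by_cases hx : x = 0
  · rw [hx]
    simp
  rw [vv_of_ne hx] at h
  have h1 : 0 < HahnSeries.order x := by
    by_contra h2
    push Not at h2
    have : (1 : ℝ) ≤ 2 ^ (-HahnSeries.order x) := one_le_zpow₀ (by norm_num) (by omega)
    linarith
  exact HahnSeries.coeff_eq_zero_of_lt_order (by omega)

theorem unc (F : Type) [Field F] : Uncountable (LaurentSeries F) := by
  have h0 : Uncountable (Set ℕ) := by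
    rw [← Cardinal.aleph0_lt_mk_iff, Cardinal.mk_set, Cardinal.mk_nat]
    exact Cardinal.cantor _
  classical
  let g : Set ℕ → LaurentSeries F := fun s =>
    HahnSeries.ofPowerSeries ℤ F (PowerSeries.mk fun n => if n ∈ s then 1 else 0)
  have hg : Function.Injective g := by
    intro s t hst
    have h1 := HahnSeries.ofPowerSeries_injective hst
    ext n
    have h2 := congrArg (PowerSeries.coeff n) h1
    simp only [PowerSeries.coeff_mk] at h2
    by_cases hs : n ∈ s <;> by_cases ht : n ∈ t <;> simp_all
  exact hg.uncountable

theorem t_ALI (h : S_DNS) : S_ALI := by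
  intro F _ _ d a
  have := unc F
  obtain ⟨t, ht, hta⟩ := h F (LaurentSeries F) (vv F)
    ⟨HahnSeries.single 1 1, by simp, by
      rw [vv_of_ne (by simp), HahnSeries.order_single one_ne_zero]
      norm_num⟩ d (fun i => HahnSeries.C (a i)) 1 one_pos
  have key : ∀ i, ∀ n : ℤ, n ≤ 0 → (t i).coeff n = if n = 0 then a i else 0 := by
    intro i n hn
    have h1 := coeff_of_vv (hta i) hn
    rw [HahnSeries.coeff_sub, sub_eq_zero] at h1
    rw [h1, HahnSeries.C_apply, HahnSeries.coeff_single]
    simp
  have hte : (fun i => HahnSeries.ofPowerSeries ℤ F (PowerSeries.mk fun n => (t i).coeff n)) =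
      t := by
    funext i
    ext n
    rw [PowerSeries.coeff_coe]
    split_ifs with hn
    · rw [key i n hn.le, if_neg hn.ne]
    · rw [PowerSeries.coeff_mk]
      congr 1
      omega
  refine ⟨fun i => PowerSeries.mk fun n => (t i).coeff n, fun i => ?_, ?_⟩
  · rw [← PowerSeries.coeff_zero_eq_constantCoeff_apply, PowerSeries.coeff_mk]
    have := key i 0 le_rfl
    simpa using this
  · rw [hte]
    exact ht

end Pool.Agent.N890.LP.ALI
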