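import Pool.Agent.Helper165.P1.Conc
import Pool.Agent.N890.KO.Stm

/-!
Project LP (helper890), pages MP_8312c9_nt and MP_e66f84_ag: all finitely generated fields `k` which
can be embedded in a field of Laurent series `F((T))` over a number field `F`.

The absolute Galois group of `F` acts on the Puiseux series over the algebraic closure of `F`
through the coefficients, and this algebraically closed field contains `k`; so there is a
homomorphism from the absolute Galois group of `F` to that of `k`. Every finitely generated subfield of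
`F((T))` can be embedded in every completion of `F`.
-/

set_option autoImplicit false

namespace Pool.Agent.N890.LP

open Polynomial NumberField IsDedekindDomain Pool.Agent.Helper165.P1 Pool.Agent.N890.KO

/-- the Puiseux series with coefficients in the algebraic closure of `F` -/
abbrev PP (F : Type) [Field F] : Type := Pui (AlgebraicClosure F)

/-- the constants -/
noncomputable def cst (F : Type) [Field F] : AlgebraicClosure F →+* PP F := cP

/-- the action of the Galois group on the coefficients -/
noncomputable def pact {F : Type} [Field F] (σ : AlgebraicClosure F ≃ₐ[F] AlgebraicClosure F) :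
    PP F ≃+* PP F :=
  twP (σ : AlgebraicClosure F ≃+* AlgebraicClosure F) 1

/-- a homomorphism of fields, applied to the coefficients -/
noncomputable def coefHom {A B : Type} [Field A] [Field B] (f : A →+* B) :
    LaurentSeries A →+* LaurentSeries B where
  toFun x := x.map f
  map_one' := by
    ext q
    simp only [HahnSeries.map_coeff, HahnSeries.coeff_one]
    split_ifs <;> simp
  map_zero' := by
    ext q
    simp
  map_add' x y := by
    ext q
    simp
  map_mul' x y := by
    ext q
    simp only [HahnSeries.map_coeff, HahnSeries.coeff_mul, map_sum, map_mul]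
    refine Finset.sum_congr ?_ fun _ _ => rfl
    ext ij
    simp only [Finset.mem_antidiagonal, HahnSeries.mem_support, HahnSeries.map_coeff, ne_eq,
      map_eq_zero]

/-- the Laurent series over `F` as Puiseux series -/
noncomputable def lau (F : Type) [Field F] : LaurentSeries F →+* PP F :=
  (eP 1 one_pos).comp (coefHom (algebraMap F (AlgebraicClosure F)))

/-- the Puiseux series with coefficients in `F` -/
noncomputable def PF (F : Type) [Field F] : Subfield (PP F) where
  carrier := {x | ∀ σ : AlgebraicClosure F ≃ₐ[F] AlgebraicClosure F, pact σ x = x}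
  mul_mem' ha hb τ := by rw [map_mul, ha τ, hb τ]
  one_mem' τ := map_one _
  add_mem' ha hb τ := by rw [map_add, ha τ, hb τ]
  zero_mem' τ := map_zero _
  neg_mem' ha τ := by rw [map_neg, ha τ]
  inv_mem' x hx τ := by rw [map_inv₀, hx τ]

/-- PUI. A Puiseux series with finitely many conjugates is a sum of products of constants and
series with coefficients in `F`. -/
def S_PUI : Prop := ∀ (F : Type) [Field F] [CharZero F] (y : PP F),
  (Set.range fun σ : AlgebraicClosure F ≃ₐ[F] AlgebraicClosure F => pact σ y).Finite →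
  ∃ (n : ℕ) (r : Fin n → PP F) (f : Fin n → AlgebraicClosure F), (∀ j, r j ∈ PF F) ∧
    y = ∑ j, r j * cst F (f j)

/-- PRM. Generators of a finitely generated field. -/
def S_PRM : Prop := ∀ (F K₁ : Type) [Field F] [CharZero F] [Field K₁] [Algebra F K₁]
  (S : Finset K₁), ∃ (d : ℕ) (x : Fin d → K₁) (θ : K₁) (P : Polynomial (MvPolynomial (Fin d) F)),
    eval₂ (MvPolynomial.aeval (R := F) x : MvPolynomial (Fin d) F →+* K₁) θ P = 0 ∧
    eval₂ (MvPolynomial.aeval (R := F) x : MvPolynomial (Fin d) F →+* K₁) θ (derivative P) ≠ 0 ∧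
    ∀ (L : Type) [Field L] [Algebra F L] (t : Fin d → L) (ϑ : L), AlgebraicIndependent F t →
      eval₂ (MvPolynomial.aeval (R := F) t : MvPolynomial (Fin d) F →+* L) ϑ P = 0 →
      Nonempty (IntermediateField.adjoin F (S : Set K₁) →ₐ[F] L)

/-- NW1. Approximate roots. -/
def S_NW1 : Prop := ∀ (F L : Type) [Field F] [CharZero F] [Field L] [Algebra F L]
  (v : AbsoluteValue L ℝ), (∀ x y, v (x + y) ≤ max (v x) (v y)) → (∃ u : L, u ≠ 0 ∧ v u < 1) →
  ∀ (d : ℕ) (x : Fin d → LaurentSeries F) (θ : LaurentSeries F)
    (P : Polynomial (MvPolynomial (Fin d) F)),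
  eval₂ (MvPolynomial.aeval (R := F) x : MvPolynomial (Fin d) F →+* LaurentSeries F) θ P = 0 →
  eval₂ (MvPolynomial.aeval (R := F) x : MvPolynomial (Fin d) F →+* LaurentSeries F) θ
    (derivative P) ≠ 0 →
  ∃ (t : Fin d → L) (a : L), ∀ i, 2 ≤ i →
    v ((taylor a (P.map (MvPolynomial.aeval (R := F) t : MvPolynomial (Fin d) F →+* L))).coeff 0)
      ^ (i - 1) *
    v ((taylor a (P.map (MvPolynomial.aeval (R := F) t : MvPolynomial (Fin d) F →+* L))).coeff i) <
    v ((taylor a (P.map (MvPolynomial.aeval (R := F) t : MvPolynomial (Fin d) F →+* L))).coeff 1)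
      ^ i

/-- NW2. Newton's method: an approximate root is near a root. -/
def S_NW2 : Prop := ∀ (L B : Type) [Field L] [Field B] [Algebra L B] [IsAlgClosure L B] [CharZero L]
  (v : AbsoluteValue B ℝ) (p : ℕ) (π : L), Good v p π → ∀ (f : L[X]) (a : L),
  (∀ i, 2 ≤ i → v (algebraMap L B ((taylor a f).coeff 0)) ^ (i - 1) *
    v (algebraMap L B ((taylor a f).coeff i)) < v (algebraMap L B ((taylor a f).coeff 1)) ^ i) →
  ∃ x : L, f.eval x = 0

/-- DNS. Density of the algebraically independent elements. -/
def S_DNS : Prop := ∀ (F L : Type) [Field F] [Countable F] [Field L] [Algebra F L] [Uncountable L]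
  (v : AbsoluteValue L ℝ), (∃ u : L, u ≠ 0 ∧ v u < 1) → ∀ (d : ℕ) (t₀ : Fin d → L) (δ : ℝ),
  0 < δ → ∃ t : Fin d → L, AlgebraicIndependent F t ∧ ∀ i, v (t i - t₀ i) < δ

/-- EMB. The finitely generated subfields of `F((T))` can be embedded in the completions of `F`. -/
def S_EMB : Prop := ∀ (F : Type) [Field F] [NumberField F] (w : HeightOneSpectrum (𝓞 F))
  (S : Finset (LaurentSeries F)),
  Nonempty (IntermediateField.adjoin F (S : Set (LaurentSeries F)) →ₐ[F] w.adicCompletion F)

/-- EMP. The same for Puiseux series. -/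
def S_EMP : Prop := ∀ (F : Type) [Field F] [NumberField F] (w : HeightOneSpectrum (𝓞 F))
  (S : Finset (PP F)), (∀ x ∈ S, x ∈ PF F) →
  ∃ (R : Subfield (PP F)) (ψ : R →+* w.adicCompletion F), (∀ x ∈ S, x ∈ R) ∧ R ≤ PF F ∧
    ∀ c : F, ∃ h : cst F (algebraMap F (AlgebraicClosure F) c) ∈ R,
      ψ ⟨_, h⟩ = algebraMap F (w.adicCompletion F) c

/-- EQV. The splitting over `F` of the Galois group of a subfield of `F((T))`, and embeddings in the
completions which are compatible with it. -/
def S_EQV : Prop := ∀ (F k' : Type) [Field F] [NumberField F] [Field k'] [Algebra F k']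
  (T : Finset k'), IntermediateField.adjoin F (T : Set k') = ⊤ → (k' →ₐ[F] LaurentSeries F) →
  ∃ (e : AlgebraicClosure F →ₐ[F] AlgebraicClosure k')
    (h : (AlgebraicClosure F ≃ₐ[F] AlgebraicClosure F) →*
      (AlgebraicClosure k' ≃ₐ[k'] AlgebraicClosure k')),
    (∀ σ y, h σ (e y) = e (σ y)) ∧
    (∀ M : IntermediateField k' (AlgebraicClosure k'), FiniteDimensional k' M →
      ∃ M' : IntermediateField F (AlgebraicClosure F), FiniteDimensional F M' ∧
        ∀ σ τ, (∀ x ∈ M', σ x = τ x) → ∀ x ∈ M, h σ x = h τ x) ∧
    ∀ (w : HeightOneSpectrum (𝓞 F)) (M : IntermediateField k' (AlgebraicClosure k')),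
      FiniteDimensional k' M →
      ∃ (φ : k' →ₐ[F] w.adicCompletion F)
        (ι : AlgebraicClosure k' →ₐ[F] AlgebraicClosure (w.adicCompletion F)),
        (∀ x, ι (algebraMap k' _ x) = algebraMap _ _ (φ x)) ∧
        ∀ (σ : AlgebraicClosure (w.adicCompletion F) ≃ₐ[w.adicCompletion F]
            AlgebraicClosure (w.adicCompletion F)) (τ : AlgebraicClosure F ≃ₐ[F] AlgebraicClosure F),
          (∀ z, ι (e (τ z)) = σ (ι (e z))) → ∀ x ∈ M, ι (h τ x) = σ (ι x)

/-- ALI. Algebraically independent power series. -/
def S_ALI : Prop := ∀ (F : Type) [Field F] [Countable F] (d : ℕ) (a : Fin d → F),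
  ∃ t : Fin d → PowerSeries F, (∀ i, PowerSeries.constantCoeff (t i) = a i) ∧
    AlgebraicIndependent F (fun i => HahnSeries.ofPowerSeries ℤ F (t i))

/-- RAT. The fields of rational functions. -/
def S_RAT : Prop := ∀ (F : Type) [Field F] [Countable F] (l : ℕ),
  Nonempty (FractionRing (MvPolynomial (Fin l) F) →ₐ[F] LaurentSeries F)

/-- EXI. Every finitely generated field over `K` can be embedded in a field of Laurent series over a
number field. -/
def S_EXI : Prop := ∀ (K k : Type) [Field K] [NumberField K] [Field k] [Algebra K k]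
  (T : Finset k), IntermediateField.adjoin K (T : Set k) = ⊤ →
  ∃ (F : Type) (_ : Field F) (_ : NumberField F) (_ : Algebra K F) (ψ : k →+* LaurentSeries F),
    ∀ x : K, ψ (algebraMap K k x) = algebraMap F (LaurentSeries F) (algebraMap K F x)

end Pool.Agent.N890.LP
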