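import Mathlib
import Pool.Agent.N890.LP.Stm0

/-!
Project LP (helper890), DNS: density of the algebraically independent elements. (helper615)
-/

set_option autoImplicit false

namespace Pool.Agent.N890.LP.DNS

open Pool.Agent.N890.LP

/-- balls are uncountable -/
theorem ball {L : Type} [Field L] [Uncountable L] (v : AbsoluteValue L ℝ) {u : L} (hu0 : u ≠ 0)
    (hu1 : v u < 1) {δ : ℝ} (hδ : 0 < δ) (c : L) : ¬ Set.Countable {x : L | v (x - c) < δ} := by
  intro h
  have h1 : Set.Countable {x : L | v x < δ} := by
    have h2 : {x : L | v x < δ} = (fun x => x + c) ⁻¹' {x : L | v (x - c) < δ} := by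
      ext x
      simp
    rw [h2]
    exact h.preimage_of_injOn (add_left_injective c).injOn
  have h3 : (Set.univ : Set L) ⊆ ⋃ n : ℕ, (fun x => u ^ n * x) ⁻¹' {x : L | v x < δ} := by
    intro x _
    rw [Set.mem_iUnion]
    have h4 : Filter.Tendsto (fun n : ℕ => v u ^ n * v x) Filter.atTop (nhds 0) := by
      have := (tendsto_pow_atTop_nhds_zero_of_lt_one (v.nonneg u) hu1).mul_const (v x)
      rwa [zero_mul] at this
    obtain ⟨n, hn⟩ := (h4.eventually_lt_const hδ).exists
    refine ⟨n, ?_⟩
    change v (u ^ n * x) < δ
    rw [map_mul, map_pow]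
    exact hn
  have h5 : Set.Countable (Set.univ : Set L) := by
    refine (Set.countable_iUnion fun n => h1.preimage_of_injOn ?_).mono h3
    exact (mul_right_injective₀ (pow_ne_zero n hu0)).injOn
  exact Set.not_countable_univ h5

theorem t_DNS : S_DNS := by
  intro F L _ _ _ _ _ v ⟨u, hu0, hu1⟩ d
  induction d with
  | zero =>
    intro t₀ δ _
    refine ⟨Fin.elim0, ?_, fun i => i.elim0⟩
    exact algebraicIndependent_empty_type_iff.2 (algebraMap F L).injective
  | succ d ih =>
    intro t₀ δ hδ
    obtain ⟨t, ht, htv⟩ := ih (fun i => t₀ i.succ) δ hδ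
    -- an element which is transcendental over the field of the others
    have hcount : Countable (Algebra.adjoin F (Set.range t)) := by
      have h1 : Function.Surjective (MvPolynomial.aeval (R := F) t).rangeRestrict :=
        AlgHom.rangeRestrict_surjective _
      have h0 : Countable (MvPolynomial (Fin d) F) := by
        rw [← Cardinal.mk_le_aleph0_iff]
        exact MvPolynomial.cardinalMk_le_max.trans (by simp)
      have h2 : Countable (MvPolynomial.aeval (R := F) t).range := h1.countable
      rw [← Algebra.adjoin_range_eq_range_aeval] at h2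
      exact h2
    have hc : Set.Countable {x : L | IsAlgebraic (Algebra.adjoin F (Set.range t)) x} :=
      Algebraic.countable _ L
    have hex : ∃ x : L, v (x - t₀ 0) < δ ∧ Transcendental (Algebra.adjoin F (Set.range t)) x := by
      by_contra hcon
      push Not at hcon
      exact ball v hu0 hu1 hδ (t₀ 0) (hc.mono fun x hx => not_not.1 (hcon x hx))
    obtain ⟨x, hxv, hx⟩ := hex
    have h1 := (ht.option_iff_transcendental x).2 hx
    refine ⟨Fin.cons x t, ?_, fun i => ?_⟩
    · have h2 : (Fin.cons x t : Fin (d + 1) → L) =
          (fun o : Option (Fin d) => o.elim x t) ∘ finSuccEquiv d := by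
        funext i
        refine Fin.cases ?_ (fun j => ?_) i
        · simp
        · simp
      rw [h2]
      exact h1.comp _ (finSuccEquiv d).injective
    · refine Fin.cases ?_ (fun j => ?_) i
      · exact hxv
      · exact htv j

end Pool.Agent.N890.LP.DNS
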