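import Pool.Agent.N890.LP.Stm
import Pool.Agent.N890.KO.Stm2

/-!
Project LP (helper890), part EMB: finitely generated subfields of `F((T))` embed in the completions of
`F` (helper306).
-/

set_option autoImplicit false

namespace Pool.Agent.N890.LP.EMB

open Polynomial NumberField IsDedekindDomain Filter Pool.Agent.N890.LP
open scoped Topology

/-! ### Continuity of polynomials at a point -/

section cont

variable {F L : Type} [Field F] [Field L] [Algebra F L] {d : ℕ} (v : AbsoluteValue L ℝ)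
  (t₀ : Fin d → L)

/-- the neighbourhoods of `t₀` -/
def nb : Filter (Fin d → L) := comap (fun t i => v (t i - t₀ i)) (𝓝 0)

/-- continuity at `t₀` -/
def Cn (g : (Fin d → L) → L) : Prop := Tendsto (fun t => v (g t - g t₀)) (nb v t₀) (𝓝 0)

variable {v t₀}

theorem cn_const (c : L) : Cn v t₀ (fun _ => c) := by
  unfold Cn
  simp only [sub_self, map_zero]
  exact tendsto_const_nhds

theorem cn_coord (i : Fin d) : Cn v t₀ (fun t => t i) := by
  have h1 : Tendsto (fun t : Fin d → L => fun i => v (t i - t₀ i)) (nb v t₀) (𝓝 0) := tendsto_comap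
  have h2 := (continuous_apply (A := fun _ : Fin d => ℝ) i).tendsto 0
  exact h2.comp h1

theorem Cn.add {g h : (Fin d → L) → L} (hg : Cn v t₀ g) (hh : Cn v t₀ h) :
    Cn v t₀ (fun t => g t + h t) := by
  have h1 := Filter.Tendsto.add hg hh
  rw [add_zero] at h1
  refine squeeze_zero (fun t => v.nonneg _) (fun t => ?_) h1
  rw [show g t + h t - (g t₀ + h t₀) = (g t - g t₀) + (h t - h t₀) by ring]
  exact v.add_le _ _

theorem Cn.abs {g : (Fin d → L) → L} (hg : Cn v t₀ g) :
    Tendsto (fun t => v (g t)) (nb v t₀) (𝓝 (v (g t₀))) := by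
  rw [tendsto_iff_dist_tendsto_zero]
  refine squeeze_zero (fun t => dist_nonneg) (fun t => ?_) hg
  rw [Real.dist_eq]
  exact v.abs_abv_sub_le_abv_sub _ _

theorem Cn.mul {g h : (Fin d → L) → L} (hg : Cn v t₀ g) (hh : Cn v t₀ h) :
    Cn v t₀ (fun t => g t * h t) := by
  have h1 := (Filter.Tendsto.mul hg hh.abs).add (Filter.Tendsto.const_mul (v (g t₀)) hh)
  rw [zero_mul, mul_zero, add_zero] at h1
  refine squeeze_zero (fun t => v.nonneg _) (fun t => ?_) h1
  rw [show g t * h t - g t₀ * h t₀ = (g t - g t₀) * h t + g t₀ * (h t - h t₀) by ring]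
  refine (v.add_le _ _).trans (le_of_eq ?_)
  rw [v.map_mul, v.map_mul]

theorem cn_aeval (q : MvPolynomial (Fin d) F) :
    Cn v t₀ (fun t => MvPolynomial.aeval (R := F) t q) := by
  induction q using MvPolynomial.induction_on with
  | C a =>
    simp only [MvPolynomial.aeval_C]
    exact cn_const _
  | add p q hp hq =>
    simp only [map_add]
    exact hp.add hq
  | mul_X p i hp =>
    simp only [map_mul, MvPolynomial.aeval_X]
    exact hp.mul (cn_coord i)

/-- the coefficients of the expansion at `a` -/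
noncomputable def fc (P : Polynomial (MvPolynomial (Fin d) F)) (a : L) (i : ℕ) (t : Fin d → L) : L :=
  (taylor a (P.map (MvPolynomial.aeval (R := F) t : MvPolynomial (Fin d) F →+* L))).coeff i

theorem cn_fc (P : Polynomial (MvPolynomial (Fin d) F)) (a : L) (i : ℕ) :
    Cn v t₀ (fc P a i) := by
  induction P using Polynomial.induction_on' with
  | add P Q hP hQ =>
    have e : fc (P + Q) a i = fun t => fc P a i t + fc Q a i t := by
      funext t
      unfold fc
      rw [Polynomial.map_add, map_add, coeff_add]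
    rw [e]
    exact hP.add hQ
  | monomial n q =>
    have e : fc (monomial n q) a i = fun t : Fin d → L =>
        MvPolynomial.aeval (R := F) t q * ((X + C a) ^ n : L[X]).coeff i := by
      funext t
      unfold fc
      rw [Polynomial.map_monomial, taylor_monomial, coeff_C_mul]
      rfl
    rw [e]
    exact (cn_aeval q).mul (cn_const _)

theorem ev_nb {Q : (Fin d → L) → Prop} (h : ∀ᶠ t in nb v t₀, Q t) :
    ∃ δ : ℝ, 0 < δ ∧ ∀ t : Fin d → L, (∀ i, v (t i - t₀ i) < δ) → Q t := by
  unfold nb at h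
  rw [eventually_comap, Metric.eventually_nhds_iff] at h
  obtain ⟨δ, hδ, h⟩ := h
  refine ⟨δ, hδ, fun t ht => ?_⟩
  refine h (y := fun i => v (t i - t₀ i)) ?_ t rfl
  rw [dist_pi_lt_iff hδ]
  intro i
  rw [Pi.zero_apply, Real.dist_eq, sub_zero, abs_of_nonneg (v.nonneg _)]
  exact ht i

/-- the inequalities for Newton's method are open -/
theorem open_ineq (P : Polynomial (MvPolynomial (Fin d) F)) (a : L)
    (h : ∀ i, 2 ≤ i → v (fc P a 0 t₀) ^ (i - 1) * v (fc P a i t₀) < v (fc P a 1 t₀) ^ i) :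
    ∃ δ : ℝ, 0 < δ ∧ ∀ t : Fin d → L, (∀ i, v (t i - t₀ i) < δ) →
      ∀ i, 2 ≤ i → v (fc P a 0 t) ^ (i - 1) * v (fc P a i t) < v (fc P a 1 t) ^ i := by
  have h1 : ∀ᶠ t in nb v t₀, ∀ i ∈ Finset.range (P.natDegree + 3), 2 ≤ i →
      v (fc P a 0 t) ^ (i - 1) * v (fc P a i t) < v (fc P a 1 t) ^ i := by
    rw [Filter.eventually_all_finset]
    intro i _
    by_cases hi : 2 ≤ i
    · have h2 : Tendsto (fun t => v (fc P a 0 t) ^ (i - 1) * v (fc P a i t)) (nb v t₀)
          (𝓝 (v (fc P a 0 t₀) ^ (i - 1) * v (fc P a i t₀))) :=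
        ((cn_fc P a 0).abs.pow (i - 1)).mul (cn_fc P a i).abs
      have h3 : Tendsto (fun t => v (fc P a 1 t) ^ i) (nb v t₀) (𝓝 (v (fc P a 1 t₀) ^ i)) :=
        (cn_fc P a 1).abs.pow i
      exact (h2.eventually_lt h3 (h i hi)).mono fun t ht _ => ht
    · exact Eventually.of_forall fun t h' => absurd h' hi
  obtain ⟨δ, hδ, h4⟩ := ev_nb h1
  refine ⟨δ, hδ, fun t ht i hi => ?_⟩
  by_cases hiP : i < P.natDegree + 3
  · exact h4 t ht i (Finset.mem_range.2 hiP) hi
  · have h5 : fc P a i t = 0 := by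
      unfold fc
      apply coeff_eq_zero_of_natDegree_lt
      rw [natDegree_taylor]
      exact lt_of_le_of_lt natDegree_map_le (by omega)
    have h6 := h4 t ht 2 (Finset.mem_range.2 (by omega)) le_rfl
    have h7 : 0 < v (fc P a 1 t) := by
      rcases (v.nonneg (fc P a 1 t)).lt_or_eq with h8 | h8
      · exact h8
      · exfalso
        rw [← h8] at h6
        have : 0 ≤ v (fc P a 0 t) ^ (2 - 1) * v (fc P a 2 t) :=
          mul_nonneg (pow_nonneg (v.nonneg _) _) (v.nonneg _)
        norm_num at h6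
        norm_num at this
        linarith
    rw [h5, map_zero, mul_zero]
    exact pow_pos h7 i

end cont

theorem countable_nf (F : Type) [Field F] [NumberField F] : Countable F :=
  (Module.finBasis ℚ F).equivFun.toEquiv.injective.countable

theorem t_EMB : S_PRM → S_NW1 → S_NW2 → S_DNS → Pool.Agent.N890.KO.S_LOC →
    Pool.Agent.N890.FG.S_LOF → S_EMB := by
  intro hPRM hNW1 hNW2 hDNS hLOC hLOF F _ _ w S
  obtain ⟨V, p, hC⟩ := hLOC F w
  obtain ⟨V', -, hU⟩ := hLOF F w
  have hcz : CharZero (w.adicCompletion F) :=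
    charZero_of_injective_algebraMap (algebraMap F (w.adicCompletion F)).injective
  have hcF : Countable F := countable_nf F
  have hunc : Uncountable (w.adicCompletion F) := by
    rw [← not_countable_iff]
    intro hc
    exact hU 1 one_pos (Set.to_countable _)
  have hinj : Function.Injective (algebraMap (w.adicCompletion F)
      (AlgebraicClosure (w.adicCompletion F))) :=
    (algebraMap (w.adicCompletion F) (AlgebraicClosure (w.adicCompletion F))).injective
  obtain ⟨v, hv⟩ : ∃ v : AbsoluteValue (w.adicCompletion F) ℝ,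
      ∀ x, v x = V (algebraMap _ (AlgebraicClosure (w.adicCompletion F)) x) :=
    ⟨V.comp hinj, fun _ => rfl⟩
  obtain ⟨ϖ, h0, h1, hd⟩ := hC.disc
  have hG : Pool.Agent.N890.KO.Good V p ϖ :=
    ⟨hC.na, hC.inv, h0, h1, hd, hC.res, hC.prime, hC.p1⟩
  have hu : ∃ u : w.adicCompletion F, u ≠ 0 ∧ v u < 1 := ⟨ϖ, h0, by rw [hv]; exact h1⟩
  obtain ⟨d, x, θ, P, hP0, hP1, hemb⟩ := hPRM F (LaurentSeries F) S
  obtain ⟨t₀, a, hta⟩ := hNW1 F (w.adicCompletion F) v
    (fun x y => by rw [hv, hv, hv, map_add]; exact hC.na _ _) hu d x θ P hP0 hP1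
  obtain ⟨δ, hδ, hop⟩ := open_ineq (v := v) (t₀ := t₀) P a hta
  obtain ⟨t, ht, htδ⟩ := hDNS F (w.adicCompletion F) v hu d t₀ δ hδ
  have hin := hop t htδ
  obtain ⟨y, hy⟩ := hNW2 (w.adicCompletion F) (AlgebraicClosure (w.adicCompletion F)) V p ϖ hG
    (P.map (MvPolynomial.aeval (R := F) t : MvPolynomial (Fin d) F →+* w.adicCompletion F)) a
    (fun i hi => by
      have := hin i hi
      rw [hv, hv, hv] at this
      exact this)
  refine hemb (w.adicCompletion F) t y ht ?_
  rw [← Polynomial.eval_map]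
  exact hy

end Pool.Agent.N890.LP.EMB
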