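import Pool.Agent.N890.LP.Stm0

/-!
Project LP (helper890): leaf EMP (helper954). The finitely generated subfields of the field of Puiseux
series with coefficients in `F` can be embedded in the completions of `F`.
-/

set_option autoImplicit false

namespace Pool.Agent.N890.LP.EMP

open Polynomial NumberField IsDedekindDomain Pool.Agent.Helper165.P1 Pool.Agent.N890.KO
open Pool.Agent.N890.LP

/-- the Laurent series over `F` in the variable `t ^ (1 / m)`, as Puiseux series -/
noncomputable def jm (F : Type) [Field F] (m : ℕ) (hm : 0 < m) : LaurentSeries F →+* PP F :=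
  (eP m hm).comp (coefHom (algebraMap F (AlgebraicClosure F)))

theorem coefHom_coeff {A B : Type} [Field A] [Field B] (f : A →+* B) (x : LaurentSeries A)
    (n : ℤ) : (coefHom f x).coeff n = f (x.coeff n) := rfl

theorem jm_coe (F : Type) [Field F] (m : ℕ) (hm : 0 < m) (x : LaurentSeries F) :
    ((jm F m hm x : PP F) : HQ (AlgebraicClosure F)) =
      eHom m hm (coefHom (algebraMap F (AlgebraicClosure F)) x) := rfl

theorem jm_mem (F : Type) [Field F] (m : ℕ) (hm : 0 < m) (x : LaurentSeries F) :
    jm F m hm x ∈ PF F := by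
  intro σ
  apply Subtype.ext
  ext q
  have h0 : ((pact σ (jm F m hm x) : PP F) : HQ (AlgebraicClosure F)).coeff q =
      (1 : AddChar ℚ (AlgebraicClosure F)) q *
        σ (((jm F m hm x : PP F) : HQ (AlgebraicClosure F)).coeff q) := rfl
  rw [h0, jm_coe, AddChar.one_apply, one_mul]
  by_cases h : ∃ n : ℤ, (n : ℚ) / m = q
  · obtain ⟨n, rfl⟩ := h
    rw [eHom_coeff, coefHom_coeff]
    exact σ.commutes _
  · push Not at h
    rw [eHom_coeff_of_ne m hm _ q h, map_zero]

theorem jm_algebraMap (F : Type) [Field F] (m : ℕ) (hm : 0 < m) (c : F) :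
    jm F m hm (algebraMap F (LaurentSeries F) c) = cst F (algebraMap F (AlgebraicClosure F) c) := by
  apply Subtype.ext
  ext q
  rw [jm_coe]
  have h1 : ((cst F (algebraMap F (AlgebraicClosure F) c) : PP F) :
      HQ (AlgebraicClosure F)).coeff q = if q = 0 then algebraMap F (AlgebraicClosure F) c else 0 :=
    cP_coeff _ _
  rw [h1]
  have h2 : ∀ n : ℤ, (algebraMap F (LaurentSeries F) c).coeff n = if n = 0 then c else 0 := by
    intro n
    have h : algebraMap F (LaurentSeries F) c = (HahnSeries.C c : HahnSeries ℤ F) := by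
      rw [HahnSeries.algebraMap_apply', ← HahnSeries.ofPowerSeries_C]
      rfl
    rw [h, HahnSeries.C_apply]
    split_ifs with h
    · rw [h, HahnSeries.coeff_single_same]
    · rw [HahnSeries.coeff_single_of_ne h]
  have hm' : (m : ℚ) ≠ 0 := by exact_mod_cast hm.ne'
  by_cases h : ∃ n : ℤ, (n : ℚ) / m = q
  · obtain ⟨n, rfl⟩ := h
    rw [eHom_coeff, coefHom_coeff, h2]
    by_cases hn : n = 0
    · subst hn
      simp
    · rw [if_neg hn, if_neg, map_zero]
      intro h3
      rcases div_eq_zero_iff.1 h3 with h4 | h4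
      · exact hn (by exact_mod_cast h4)
      · exact hm' h4
  · push Not at h
    rw [eHom_coeff_of_ne m hm _ q h, if_neg]
    intro hq
    apply h 0
    rw [hq]
    simp

theorem lift_one (F : Type) [Field F] [CharZero F] (m : ℕ) (hm : 0 < m) (x : PP F)
    (hx : (x : HQ (AlgebraicClosure F)) ∈ (eHom (E := AlgebraicClosure F) m hm).range)
    (hF : x ∈ PF F) : ∃ y : LaurentSeries F, jm F m hm y = x := by
  obtain ⟨x', hx'⟩ := hx
  have hfix : ∀ n : ℤ, ∃ c : F, algebraMap F (AlgebraicClosure F) c = x'.coeff n := by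
    intro n
    have h1 : x'.coeff n ∈ Set.range (algebraMap F (AlgebraicClosure F)) := by
      rw [InfiniteGalois.mem_range_algebraMap_iff_fixed]
      intro σ
      have h2 := hF σ
      have h3 : ((pact σ x : PP F) : HQ (AlgebraicClosure F)).coeff ((n : ℚ) / m) =
        (1 : AddChar ℚ (AlgebraicClosure F)) ((n : ℚ) / m) *
          σ ((x : HQ (AlgebraicClosure F)).coeff ((n : ℚ) / m)) := rfl
      rw [h2, AddChar.one_apply, one_mul, ← hx', eHom_coeff] at h3
      exact h3.symm
    exact h1
  choose f hf using hfix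
  refine ⟨⟨f, x'.isPWO_support.mono ?_⟩, ?_⟩
  · intro n hn h0
    apply hn
    have := hf n
    rw [h0] at this
    exact (map_eq_zero _).1 this
  · apply Subtype.ext
    rw [jm_coe, ← hx']
    congr 1
    ext n
    rw [coefHom_coeff]
    exact hf n

theorem t_EMP : S_EMB → S_EMP := by
  intro hE F _ _ w S hS
  classical
  obtain ⟨m, hm, hc⟩ := exists_common S
  have h1 : ∀ x : PP F, ∃ y : LaurentSeries F, x ∈ S → jm F m hm y = x := by
    intro x
    by_cases hx : x ∈ S
    · obtain ⟨y, hy⟩ := lift_one F m hm x (hc x hx) (hS x hx)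
      exact ⟨y, fun _ => hy⟩
    · exact ⟨0, fun h => absurd h hx⟩
  choose g hg using h1
  obtain ⟨ψ₀⟩ := hE F w (S.image g)
  set K₂ : IntermediateField F (LaurentSeries F) :=
    IntermediateField.adjoin F ((S.image g : Finset (LaurentSeries F)) : Set (LaurentSeries F))
    with hK₂
  have hinj : Function.Injective (jm F m hm) := (jm F m hm).injective
  -- the isomorphism from `K₂` to its image
  let R : Subfield (PP F) := K₂.toSubfield.map (jm F m hm)
  let j0 : K₂ →+* R :=
    ((jm F m hm).comp (algebraMap K₂ (LaurentSeries F))).codRestrict R (fun x => by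
      exact Subfield.mem_map.2 ⟨(x : LaurentSeries F), x.2, rfl⟩)
  have hj0 : ∀ x : K₂, ((j0 x : R) : PP F) = jm F m hm (x : LaurentSeries F) := fun x => rfl
  have hsurj : Function.Surjective j0 := by
    rintro ⟨y, hy⟩
    obtain ⟨x, hx, rfl⟩ := Subfield.mem_map.1 hy
    exact ⟨⟨x, hx⟩, rfl⟩
  let e : K₂ ≃+* R := RingEquiv.ofBijective j0 ⟨j0.injective, hsurj⟩
  have he : ∀ x : K₂, e x = j0 x := fun _ => rfl
  refine ⟨R, (ψ₀ : K₂ →+* w.adicCompletion F).comp (e.symm : R →+* K₂), ?_, ?_, ?_⟩
  · intro x hx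
    refine Subfield.mem_map.2 ⟨g x, ?_, hg x hx⟩
    have h2 : g x ∈ K₂ := by
      apply IntermediateField.subset_adjoin
      exact Finset.mem_coe.2 (Finset.mem_image_of_mem g hx)
    exact h2
  · intro x hx
    obtain ⟨y, _, rfl⟩ := Subfield.mem_map.1 hx
    exact jm_mem F m hm y
  · intro c
    have h3 : cst F (algebraMap F (AlgebraicClosure F) c) ∈ R := by
      rw [← jm_algebraMap F m hm c]
      exact Subfield.mem_map.2 ⟨_, K₂.algebraMap_mem c, rfl⟩
    refine ⟨h3, ?_⟩
    have h4 : (⟨_, h3⟩ : R) = e (algebraMap F K₂ c) := by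
      rw [he]
      apply Subtype.ext
      rw [hj0]
      exact (jm_algebraMap F m hm c).symm
    rw [h4, RingHom.comp_apply]
    have h5 : (e.symm : R →+* K₂) (e (algebraMap F K₂ c)) = algebraMap F K₂ c :=
      e.symm_apply_apply _
    rw [h5]
    exact ψ₀.commutes c

end Pool.Agent.N890.LP.EMP
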