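import Pool.Agent.N890.LP.Stm0

/-!
# LP/EQV (helper570): the splitting and the equivariant embeddings
-/

set_option autoImplicit false

namespace Pool.Agent.N890.LP.EQV

open Polynomial NumberField IsDedekindDomain Pool.Agent.Helper165.P1 Pool.Agent.N890.KO
open Pool.Agent.N890.LP

section gen

lemma mem_range {B P : Type} [Field B] [Field P] [Algebra B P] [IsAlgClosed B] {y : P}
    (hy : IsIntegral B y) : ∃ x, algebraMap B P x = y :=
  minpoly.mem_range_of_degree_eq_one B y
    (IsAlgClosed.degree_eq_one_of_irreducible B (minpoly.irreducible hy))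

lemma fin_span {k B : Type} [Field k] [Field B] [Algebra k B] (M : IntermediateField k B)
    (hM : FiniteDimensional k M) :
    ∃ (n : ℕ) (m : Fin n → B), ∀ x ∈ M, ∃ c : Fin n → k, x = ∑ j, algebraMap k B (c j) * m j := by
  have b := Module.finBasis k M
  refine ⟨_, fun j => (b j : B), fun x hx => ⟨fun j => b.repr ⟨x, hx⟩ j, ?_⟩⟩
  have h := b.sum_repr ⟨x, hx⟩
  have h2 := congrArg (algebraMap M B) h
  rw [map_sum] at h2
  have h3 : algebraMap M B ⟨x, hx⟩ = x := rfl
  rw [h3] at h2
  refine h2.symm.trans (Finset.sum_congr rfl fun j _ => ?_)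
  rw [Algebra.smul_def, map_mul, ← IsScalarTower.algebraMap_apply]
  rfl

lemma eq_on_span {k B C : Type} [Field k] [Field B] [Algebra k B] [Field C] (f g : B →+* C)
    (hk : ∀ c : k, f (algebraMap k B c) = g (algebraMap k B c)) (M : IntermediateField k B)
    {n : ℕ} (m : Fin n → B)
    (hm : ∀ x ∈ M, ∃ c : Fin n → k, x = ∑ j, algebraMap k B (c j) * m j)
    (h : ∀ j, f (m j) = g (m j)) : ∀ x ∈ M, f x = g x := by
  intro x hx
  obtain ⟨c, rfl⟩ := hm x hx
  rw [map_sum, map_sum]
  refine Finset.sum_congr rfl fun j _ => ?_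
  rw [map_mul, map_mul, hk, h]

lemma int_of {k R P : Type} [Field k] [Field R] [Field P] [Algebra k P] [Algebra R P]
    (κ : k →+* R) (hκ : ∀ x, algebraMap R P (κ x) = algebraMap k P x) {y : P}
    (hy : IsIntegral k y) : IsIntegral R y := by
  obtain ⟨p, hp, hpy⟩ := hy
  refine ⟨p.map κ, hp.map κ, ?_⟩
  rw [eval₂_map]
  have : (algebraMap R P).comp κ = algebraMap k P := RingHom.ext hκ
  rw [this, hpy]

end gen

set_option linter.unusedSectionVars false

section core

variable {F k E B P : Type} [Field F] [Field k] [Field E] [Field B] [Field P]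
  [Algebra F k] [Algebra F E] [Algebra k B] [Algebra F B] [IsScalarTower F k B]
  [Algebra F P] [Algebra k P] [IsScalarTower F k P] [Algebra E P] [IsScalarTower F E P]
  [Algebra B P] [IsScalarTower k B P] [IsScalarTower F B P]

omit [Algebra F k] [Algebra k B] [IsScalarTower F k B] [Algebra k P] [IsScalarTower F k P]
  [IsScalarTower k B P] [Field k] in
lemma exists_e [IsAlgClosed B] [Algebra.IsAlgebraic F E] :
    ∃ e : E →ₐ[F] B, ∀ y, algebraMap B P (e y) = algebraMap E P y := by
  have h1 : ∀ y : E, ∃ x : B, algebraMap B P x = algebraMap E P y := by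
    intro y
    apply mem_range
    have h2 : IsIntegral F (algebraMap E P y) :=
      (Algebra.IsIntegral.isIntegral (R := F) y).algebraMap
    exact h2.tower_top
  choose e he using h1
  have hinj := (algebraMap B P).injective
  exact ⟨{ toFun := e
           map_one' := hinj (by rw [he, map_one, map_one])
           map_zero' := hinj (by rw [he, map_zero, map_zero])
           map_mul' := fun x y => hinj (by rw [he, map_mul, map_mul, he, he])
           map_add' := fun x y => hinj (by rw [he, map_add, map_add, he, he])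
           commutes' := fun c => hinj (by
             rw [he, ← IsScalarTower.algebraMap_apply, ← IsScalarTower.algebraMap_apply]) }, he⟩

/-- the expansion of an element of `B` -/
def Ex (act : (E ≃ₐ[F] E) →* (P ≃ₐ[k] P)) (m : B) (l : ℕ) (r : Fin l → P) (f : Fin l → E) : Prop :=
  (∀ j σ, act σ (r j) = r j) ∧ algebraMap B P m = ∑ j, r j * algebraMap E P (f j)

theorem core1 [IsAlgClosed B] [Normal k B] [Algebra.IsAlgebraic F E]
    (act : (E ≃ₐ[F] E) →* (P ≃ₐ[k] P))
    (hact : ∀ σ y, act σ (algebraMap E P y) = algebraMap E P (σ y))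
    (hpui : ∀ y : P, (Set.range fun σ => act σ y).Finite →
      ∃ (n : ℕ) (r : Fin n → P) (f : Fin n → E), (∀ j σ, act σ (r j) = r j) ∧
        y = ∑ j, r j * algebraMap E P (f j)) :
    ∃ (e : E →ₐ[F] B) (h : (E ≃ₐ[F] E) →* (B ≃ₐ[k] B)),
      (∀ y, algebraMap B P (e y) = algebraMap E P y) ∧
      (∀ σ z, algebraMap B P (h σ z) = act σ (algebraMap B P z)) ∧
      (∀ σ y, h σ (e y) = e (σ y)) ∧ (∀ m : B, ∃ l r f, Ex act m l r f) := by
  obtain ⟨e, he⟩ := exists_e (F := F) (E := E) (B := B) (P := P)
  obtain ⟨h, hh⟩ : ∃ h : (E ≃ₐ[F] E) →* (B ≃ₐ[k] B),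
      ∀ σ z, algebraMap B P (h σ z) = act σ (algebraMap B P z) :=
    ⟨(AlgEquiv.restrictNormalHom B).comp act, fun σ z =>
      AlgEquiv.restrictNormal_commutes (act σ) B z⟩
  refine ⟨e, h, he, hh, ?_, ?_⟩
  · intro σ y
    apply (algebraMap B P).injective
    rw [hh, he, he, hact]
  · intro m
    have hfin : (Set.range fun σ => act σ (algebraMap B P m)).Finite := by
      have h1 : ((minpoly k m).rootSet B).Finite := Polynomial.rootSet_finite _ _
      refine (h1.image (algebraMap B P)).subset ?_
      rintro _ ⟨σ, rfl⟩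
      refine ⟨h σ m, ?_, hh σ m⟩
      rw [mem_rootSet]
      refine ⟨minpoly.ne_zero (Algebra.IsIntegral.isIntegral m), ?_⟩
      have h2 := minpoly.aeval k m
      have h3 := congrArg (h σ) h2
      rw [map_zero] at h3
      rw [← h3]
      exact (Polynomial.aeval_algHom_apply (h σ : B →ₐ[k] B) m (minpoly k m))
    obtain ⟨l, r, f, h1, h2⟩ := hpui _ hfin
    exact ⟨l, r, f, h1, h2⟩

theorem core2 [Algebra.IsAlgebraic F E]
    (act : (E ≃ₐ[F] E) →* (P ≃ₐ[k] P))
    (hact : ∀ σ y, act σ (algebraMap E P y) = algebraMap E P (σ y))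
    (h : (E ≃ₐ[F] E) →* (B ≃ₐ[k] B))
    (hh : ∀ σ z, algebraMap B P (h σ z) = act σ (algebraMap B P z))
    (hex : ∀ m : B, ∃ l r f, Ex act m l r f) (M : IntermediateField k B)
    (hM : FiniteDimensional k M) :
    ∃ M' : IntermediateField F E, FiniteDimensional F M' ∧
      ∀ σ τ : E ≃ₐ[F] E, (∀ x ∈ M', σ x = τ x) → ∀ x ∈ M, h σ x = h τ x := by
  classical
  obtain ⟨n, m, hm⟩ := fin_span M hM
  choose l r f hf using fun j => hex (m j)
  have hfin : (⋃ j, Set.range (f j)).Finite := Set.finite_iUnion fun j => Set.finite_range _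
  refine ⟨IntermediateField.adjoin F (⋃ j, Set.range (f j)), ?_, ?_⟩
  · have : Finite (⋃ j, Set.range (f j)) := hfin
    exact IntermediateField.finiteDimensional_adjoin
      (fun x _ => Algebra.IsIntegral.isIntegral x)
  · intro σ τ hστ
    refine eq_on_span ((h σ : B ≃ₐ[k] B) : B →+* B) ((h τ : B ≃ₐ[k] B) : B →+* B) ?_ M m hm ?_
    · intro c
      show h σ (algebraMap k B c) = h τ (algebraMap k B c)
      rw [AlgEquiv.commutes, AlgEquiv.commutes]
    · intro j
      show h σ (m j) = h τ (m j)
      apply (algebraMap B P).injective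
      rw [hh, hh, (hf j).2, map_sum, map_sum]
      refine Finset.sum_congr rfl fun i _ => ?_
      rw [map_mul, map_mul, (hf j).1, (hf j).1, hact, hact, hστ]
      exact IntermediateField.subset_adjoin F _ (Set.mem_iUnion.2 ⟨j, i, rfl⟩)

theorem core3 [Algebra.IsAlgebraic k B] [Algebra.IsAlgebraic F E]
    (act : (E ≃ₐ[F] E) →* (P ≃ₐ[k] P))
    (hact : ∀ σ y, act σ (algebraMap E P y) = algebraMap E P (σ y))
    (e : E →ₐ[F] B) (he : ∀ y, algebraMap B P (e y) = algebraMap E P y)
    (h : (E ≃ₐ[F] E) →* (B ≃ₐ[k] B))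
    (hh : ∀ σ z, algebraMap B P (h σ z) = act σ (algebraMap B P z))
    (hex : ∀ m : B, ∃ l r f, Ex act m l r f)
    (L C : Type) [Field L] [Field C] [Algebra F L] [Algebra L C] [Algebra F C]
    [IsScalarTower F L C] [IsAlgClosed C]
    (T : Finset k) (hT : IntermediateField.adjoin F (T : Set k) = ⊤)
    (hemp : ∀ S : Finset P, (∀ x ∈ S, ∀ σ, act σ x = x) →
      ∃ (R : Subfield P) (ψ : R →+* L), (∀ x ∈ S, x ∈ R) ∧
        ∀ c : F, ∃ h : algebraMap F P c ∈ R, ψ ⟨_, h⟩ = algebraMap F L c)
    (M : IntermediateField k B) (hM : FiniteDimensional k M) :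
    ∃ (φ : k →ₐ[F] L) (ι : B →ₐ[F] C), (∀ x, ι (algebraMap k _ x) = algebraMap _ _ (φ x)) ∧
      ∀ (σ : C ≃ₐ[L] C) (τ : E ≃ₐ[F] E), (∀ z, ι (e (τ z)) = σ (ι (e z))) →
        ∀ x ∈ M, ι (h τ x) = σ (ι x) := by
  classical
  obtain ⟨n, m, hm⟩ := fin_span M hM
  choose l r f hf using fun j => hex (m j)
  obtain ⟨R, ψ, hS, hc⟩ := hemp
    ((Finset.univ.biUnion fun j => Finset.univ.image (r j)) ∪ T.image (algebraMap k P)) (by
      intro x hx σ
      rw [Finset.mem_union] at hx
      rcases hx with hx | hx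
      · rw [Finset.mem_biUnion] at hx
        obtain ⟨j, -, hj⟩ := hx
        rw [Finset.mem_image] at hj
        obtain ⟨i, -, rfl⟩ := hj
        exact (hf j).1 i σ
      · rw [Finset.mem_image] at hx
        obtain ⟨t, -, rfl⟩ := hx
        exact AlgEquiv.commutes _ _)
  have hrR : ∀ j i, r j i ∈ R := by
    intro j i
    apply hS
    rw [Finset.mem_union, Finset.mem_biUnion]
    exact Or.inl ⟨j, Finset.mem_univ _, Finset.mem_image_of_mem _ (Finset.mem_univ i)⟩
  have hFR : ∀ c : F, algebraMap F P c ∈ R := fun c => (hc c).1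
  have hkR : ∀ x : k, algebraMap k P x ∈ R := by
    intro x
    have h1 : IntermediateField.adjoin F (T : Set k) ≤
        (R.comap (algebraMap k P)).toIntermediateField (fun c => by
          show algebraMap k P (algebraMap F k c) ∈ R
          rw [← IsScalarTower.algebraMap_apply]
          exact hFR c) := by
      rw [IntermediateField.adjoin_le_iff]
      intro t ht
      show algebraMap k P t ∈ R
      apply hS
      rw [Finset.mem_union]
      exact Or.inr (Finset.mem_image_of_mem _ ht)
    rw [hT] at h1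
    exact h1 (IntermediateField.mem_top (x := x))
  -- the maps into `R`
  let κ : k →+* R := (algebraMap k P).codRestrict R hkR
  have hκ : ∀ x, algebraMap R P (κ x) = algebraMap k P x := fun x => rfl
  let κF : F →+* R := (algebraMap F P).codRestrict R hFR
  have hκF : ∀ x, algebraMap R P (κF x) = algebraMap F P x := fun x => rfl
  have hψF : ∀ c, ψ (κF c) = algebraMap F L c := fun c => (hc c).2
  have hκκF : ∀ c, κ (algebraMap F k c) = κF c := by
    intro c
    apply Subtype.ext
    show algebraMap k P (algebraMap F k c) = algebraMap F P c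
    rw [← IsScalarTower.algebraMap_apply]
  -- the algebraic closure of `R`
  let _ : Algebra R C := ((algebraMap L C).comp ψ).toAlgebra
  have hRC : ∀ x : R, algebraMap R C x = algebraMap L C (ψ x) := fun x => rfl
  let A : IntermediateField R P := algebraicClosure R P
  have hBA : ∀ z : B, algebraMap B P z ∈ A := by
    intro z
    show algebraMap B P z ∈ algebraicClosure R P
    rw [mem_algebraicClosure_iff']
    exact int_of κ hκ ((Algebra.IsIntegral.isIntegral (R := k) z).algebraMap)
  let β : B →+* A := (algebraMap B P).codRestrict A hBA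
  have hβ : ∀ z, ((β z : A) : P) = algebraMap B P z := fun z => rfl
  let Ψ : A →ₐ[R] C := IsAlgClosed.lift
  let φ : k →ₐ[F] L :=
    { ψ.comp κ with
      commutes' := fun c => by
        show ψ (κ (algebraMap F k c)) = algebraMap F L c
        rw [hκκF, hψF] }
  have hφ : ∀ x, φ x = ψ (κ x) := fun x => rfl
  have hβk : ∀ x : k, β (algebraMap k B x) = algebraMap R A (κ x) := by
    intro x
    apply Subtype.ext
    show algebraMap B P (algebraMap k B x) = algebraMap k P x
    rw [← IsScalarTower.algebraMap_apply]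
  have hιk : ∀ x : k, Ψ (β (algebraMap k B x)) = algebraMap L C (φ x) := by
    intro x
    rw [hβk, Ψ.commutes, hRC, hφ]
  let ι : B →ₐ[F] C :=
    { (Ψ : A →+* C).comp β with
      commutes' := fun c => by
        show Ψ (β (algebraMap F B c)) = algebraMap F C c
        rw [IsScalarTower.algebraMap_apply F k B, hιk, AlgHom.commutes,
          ← IsScalarTower.algebraMap_apply] }
  have hι : ∀ z, ι z = Ψ (β z) := fun z => rfl
  refine ⟨φ, ι, fun x => hιk x, ?_⟩
  intro σ τ hστ
  have hexp : ∀ j, β (m j) = ∑ i, algebraMap R A ⟨r j i, hrR j i⟩ * β (e (f j i)) := by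
    intro j
    apply Subtype.ext
    have h1 : ((∑ i, algebraMap R A ⟨r j i, hrR j i⟩ * β (e (f j i)) : A) : P) =
        ∑ i, r j i * algebraMap B P (e (f j i)) := by
      have := map_sum (algebraMap A P)
        (fun i => algebraMap R A ⟨r j i, hrR j i⟩ * β (e (f j i))) Finset.univ
      exact this
    rw [h1, hβ, (hf j).2]
    refine Finset.sum_congr rfl fun i _ => ?_
    rw [he]
  have hexp2 : ∀ j, β (h τ (m j)) =
      ∑ i, algebraMap R A ⟨r j i, hrR j i⟩ * β (e (τ (f j i))) := by
    intro j
    apply Subtype.ext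
    have h1 : ((∑ i, algebraMap R A ⟨r j i, hrR j i⟩ * β (e (τ (f j i))) : A) : P) =
        ∑ i, r j i * algebraMap B P (e (τ (f j i))) := by
      have := map_sum (algebraMap A P)
        (fun i => algebraMap R A ⟨r j i, hrR j i⟩ * β (e (τ (f j i)))) Finset.univ
      exact this
    rw [h1, hβ, hh, (hf j).2, map_sum]
    refine Finset.sum_congr rfl fun i _ => ?_
    rw [map_mul, (hf j).1, hact, he]
  refine eq_on_span ((ι : B →+* C).comp ((h τ : B ≃ₐ[k] B) : B →+* B))
    (((σ : C ≃ₐ[L] C) : C →+* C).comp (ι : B →+* C)) ?_ M m hm ?_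
  · intro c
    show ι (h τ (algebraMap k B c)) = σ (ι (algebraMap k B c))
    rw [AlgEquiv.commutes]
    have h1 : ι (algebraMap k B c) = algebraMap L C (φ c) := hιk c
    rw [h1, AlgEquiv.commutes]
  · intro j
    show ι (h τ (m j)) = σ (ι (m j))
    rw [hι, hι, hexp, hexp2, map_sum, map_sum, map_sum]
    refine Finset.sum_congr rfl fun i _ => ?_
    rw [map_mul, map_mul, map_mul, Ψ.commutes, hRC, AlgEquiv.commutes]
    congr 1
    exact hστ (f j i)

end core


section inst

variable {F : Type} [Field F]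

lemma lau_coeff (x : LaurentSeries F) (q : ℚ) :
    ((lau F x : PP F) : HQ (AlgebraicClosure F)).coeff q =
      (eHom 1 one_pos (coefHom (algebraMap F (AlgebraicClosure F)) x)).coeff q := rfl

lemma pact_coeff (σ : AlgebraicClosure F ≃ₐ[F] AlgebraicClosure F) (x : PP F) (q : ℚ) :
    ((pact σ x : PP F) : HQ (AlgebraicClosure F)).coeff q =
      σ ((x : HQ (AlgebraicClosure F)).coeff q) := by
  unfold pact
  rw [twP_coeff]
  show (1 : AddChar ℚ (AlgebraicClosure F)) q * σ _ = _
  rw [AddChar.one_apply, one_mul]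

lemma pact_lau (σ : AlgebraicClosure F ≃ₐ[F] AlgebraicClosure F) (x : LaurentSeries F) :
    pact σ (lau F x) = lau F x := by
  apply Subtype.ext
  ext q
  rw [pact_coeff, lau_coeff]
  by_cases h : ∃ n : ℤ, (n : ℚ) / ((1 : ℕ) : ℚ) = q
  · obtain ⟨n, rfl⟩ := h
    rw [eHom_coeff]
    exact σ.commutes (x.coeff n)
  · push Not at h
    rw [eHom_coeff_of_ne 1 one_pos _ q h, map_zero]

lemma pact_cst (σ : AlgebraicClosure F ≃ₐ[F] AlgebraicClosure F) (y : AlgebraicClosure F) :
    pact σ (cst F y) = cst F (σ y) :=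
  twP_cP _ _ _

lemma pact_one (x : PP F) : pact (1 : AlgebraicClosure F ≃ₐ[F] AlgebraicClosure F) x = x := by
  apply Subtype.ext
  ext q
  rw [pact_coeff]
  rfl

lemma pact_mul (σ τ : AlgebraicClosure F ≃ₐ[F] AlgebraicClosure F) (x : PP F) :
    pact (σ * τ) x = pact σ (pact τ x) := by
  apply Subtype.ext
  ext q
  rw [pact_coeff, pact_coeff, pact_coeff]
  rfl

lemma lau_const (c : F) :
    lau F (algebraMap F (LaurentSeries F) c) = cst F (algebraMap F (AlgebraicClosure F) c) := by
  apply Subtype.ext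
  ext q
  rw [lau_coeff]
  have h0 : algebraMap F (LaurentSeries F) c = HahnSeries.single 0 c := by
    rw [HahnSeries.algebraMap_apply']
    exact HahnSeries.ofPowerSeries_C _
  have h1 : coefHom (algebraMap F (AlgebraicClosure F)) (algebraMap F (LaurentSeries F) c) =
      HahnSeries.single 0 (algebraMap F (AlgebraicClosure F) c) := by
    rw [h0]
    show (HahnSeries.single 0 c).map (algebraMap F (AlgebraicClosure F)) = _
    ext n
    rw [HahnSeries.map_coeff]
    by_cases hn : n = 0
    · subst hn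
      rw [HahnSeries.coeff_single_same, HahnSeries.coeff_single_same]
    · rw [HahnSeries.coeff_single_of_ne hn, HahnSeries.coeff_single_of_ne hn, map_zero]
  rw [h1, eHom_single]
  have h2 : ((cst F (algebraMap F (AlgebraicClosure F) c) : PP F) : HQ (AlgebraicClosure F)) =
    HahnSeries.single 0 (algebraMap F (AlgebraicClosure F) c) := rfl
  rw [h2]
  simp

end inst

/-- **EQV** -/
theorem t_EQV : S_PUI → S_EMP → S_EQV := by
  intro hPUI hEMP F k' _ _ _ _ T hT φ₀
  let E := AlgebraicClosure F
  let B := AlgebraicClosure k'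
  let P := PP F
  let i1 : Algebra E (PP F) := (cst F).toAlgebra
  let i2 : Algebra F (PP F) := ((cst F).comp (algebraMap F E)).toAlgebra
  let i3 : Algebra k' (PP F) := ((lau F).comp (φ₀ : k' →+* LaurentSeries F)).toAlgebra
  have : IsScalarTower F E (PP F) := IsScalarTower.of_algebraMap_eq fun _ => rfl
  have : IsScalarTower F k' (PP F) := IsScalarTower.of_algebraMap_eq fun c => by
    show cst F (algebraMap F E c) = lau F (φ₀ (algebraMap F k' c))
    rw [φ₀.commutes, lau_const]
  let ι₀ : B →ₐ[k'] PP F := IsAlgClosed.lift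
  let i4 : Algebra B (PP F) := (ι₀ : B →+* PP F).toAlgebra
  have : IsScalarTower k' B (PP F) := IsScalarTower.of_algebraMap_eq fun c =>
    (ι₀.commutes c).symm
  have : IsScalarTower F B (PP F) := IsScalarTower.of_algebraMap_eq fun c => by
    rw [IsScalarTower.algebraMap_apply F k' B, ← IsScalarTower.algebraMap_apply k' B,
      ← IsScalarTower.algebraMap_apply]
  let act : (E ≃ₐ[F] E) →* (PP F ≃ₐ[k'] PP F) :=
    { toFun := fun σ => AlgEquiv.ofRingEquiv (f := pact σ) (fun x => pact_lau σ (φ₀ x))
      map_one' := by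
        apply AlgEquiv.ext
        intro x
        exact pact_one x
      map_mul' := fun σ τ => by
        apply AlgEquiv.ext
        intro x
        exact pact_mul σ τ x }
  have hact0 : ∀ σ x, act σ x = pact σ x := fun _ _ => rfl
  have hact : ∀ σ y, act σ (algebraMap E (PP F) y) = algebraMap E (PP F) (σ y) :=
    fun σ y => pact_cst σ y
  obtain ⟨e, h, he, hh, hhe, hex⟩ := core1 (B := B) act hact (by
    intro y hy
    obtain ⟨n, r, f, hr, hy⟩ := hPUI F y hy
    exact ⟨n, r, f, fun j σ => hr j σ, hy⟩)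
  refine ⟨e, h, hhe, fun M hM => core2 act hact h hh hex M hM, ?_⟩
  intro w M hM
  exact core3 act hact e he h hh hex (w.adicCompletion F)
    (AlgebraicClosure (w.adicCompletion F)) T hT (by
      intro S hS
      obtain ⟨R, ψ, h1, -, h2⟩ := hEMP F w S (fun x hx σ => hS x hx σ)
      exact ⟨R, ψ, h1, h2⟩) M hM

end Pool.Agent.N890.LP.EQV
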