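import Pool.Agent.N890.LP.Stm0

set_option autoImplicit false

/-!
Project LP (helper890): every finitely generated field over a number field embeds in a field of
Laurent series over a number field.
-/

noncomputable section

namespace Pool.Agent.N890.LP.EXI

open Polynomial Function Pool.Agent.N890.LP
open scoped Ring

/-- Hensel's lemma for polynomials which are not necessarily monic (the proof is the one of
`IsAdicComplete.henselianRing` in Mathlib, which does not use that the polynomial is monic). -/
theorem hensel (R : Type*) [CommRing R] (I : Ideal R) [IsAdicComplete I R] (f : R[X]) (a₀ : R)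
    (h₁ : f.eval a₀ ∈ I) (h₂ : IsUnit (Ideal.Quotient.mk I (f.derivative.eval a₀))) :
    ∃ a : R, f.IsRoot a ∧ a - a₀ ∈ I := by
  classical
  let f' := derivative f
  -- we define a sequence `c n` by starting at `a₀` and then continually
  -- applying the function sending `b` to `b - f(b)/f'(b)` (Newton's method).
  -- Note that `f'.eval b` is a unit, because `b` has the same residue as `a₀` modulo `I`.
  let c : ℕ → R := fun n => Nat.recOn n a₀ fun _ b => b - f.eval b * (f'.eval b)⁻¹ʳ
  have hc : ∀ n, c (n + 1) = c n - f.eval (c n) * (f'.eval (c n))⁻¹ʳ := by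
    intro n
    simp only [c]
  -- we now spend some time determining properties of the sequence `c : ℕ → R`
  -- `hc_mod`: for every `n`, we have `c n ≡ a₀ [SMOD I]`
  -- `hf'c`  : for every `n`, `f'.eval (c n)` is a unit
  -- `hfcI`  : for every `n`, `f.eval (c n)` is contained in `I ^ (n+1)`
  have hc_mod : ∀ n, c n ≡ a₀ [SMOD I] := by
    intro n
    induction n with
    | zero => rfl
    | succ n ih => ?_
    rw [hc, sub_eq_add_neg, ← add_zero a₀]
    refine ih.add ?_
    rw [SModEq.zero, Ideal.neg_mem_iff]
    refine I.mul_mem_right _ ?_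
    rw [← SModEq.zero] at h₁ ⊢
    exact (ih.eval f).trans h₁
  have hf'c : ∀ n, IsUnit (f'.eval (c n)) := by
    intro n
    have := isLocalHom_of_le_jacobson_bot I (IsAdicComplete.le_jacobson_bot I)
    apply IsUnit.of_map (Ideal.Quotient.mk I)
    convert! h₂ using 1
    exact SModEq.def.mp ((hc_mod n).eval _)
  have hfcI : ∀ n, f.eval (c n) ∈ I ^ (n + 1) := by
    intro n
    induction n with
    | zero => simpa only [Nat.rec_zero, zero_add, pow_one] using! h₁
    | succ n ih => ?_
    rw [← taylor_eval_sub (c n), hc, sub_eq_add_neg, sub_eq_add_neg,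
      add_neg_cancel_comm]
    rw [eval_eq_sum, sum_over_range' _ _ _ (lt_add_of_pos_right _ zero_lt_two), ←
      Finset.sum_range_add_sum_Ico _ (Nat.le_add_left _ _)]
    swap
    · intro i
      rw [zero_mul]
    refine Ideal.add_mem _ ?_ ?_
    · rw [← one_add_one_eq_two, Finset.sum_range_succ, Finset.range_one, Finset.sum_singleton,
        taylor_coeff_zero, taylor_coeff_one, pow_zero, pow_one, mul_one, mul_neg,
        mul_left_comm, Ring.mul_inverse_cancel _ (hf'c n), mul_one, add_neg_cancel]
      exact Ideal.zero_mem _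
    · refine Submodule.sum_mem _ ?_
      simp only [Finset.mem_Ico]
      rintro i ⟨h2i, _⟩
      have aux : n + 2 ≤ i * (n + 1) := by trans 2 * (n + 1) <;> nlinarith only [h2i]
      refine Ideal.mul_mem_left _ _ (Ideal.pow_le_pow_right aux ?_)
      rw [pow_mul']
      exact Ideal.pow_mem_pow ((Ideal.neg_mem_iff _).2 <| Ideal.mul_mem_right _ _ ih) _
  -- we are now in the position to show that `c : ℕ → R` is a Cauchy sequence
  have aux : ∀ m n, m ≤ n → c m ≡ c n [SMOD (I ^ m • ⊤ : Ideal R)] := by
    intro m n hmn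
    rw [← Ideal.one_eq_top, Ideal.smul_eq_mul, mul_one]
    obtain ⟨k, rfl⟩ := Nat.exists_eq_add_of_le hmn
    clear hmn
    induction k with
    | zero => rw [add_zero]
    | succ k ih => ?_
    rw [← add_assoc, hc, ← add_zero (c m), sub_eq_add_neg]
    refine ih.add ?_
    symm
    rw [SModEq.zero, Ideal.neg_mem_iff]
    refine Ideal.mul_mem_right _ _ (Ideal.pow_le_pow_right ?_ (hfcI _))
    rw [add_assoc]
    exact le_self_add
  -- hence the sequence converges to some limit point `a`, which is the `a` we are looking for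
  obtain ⟨a, ha⟩ := IsPrecomplete.prec' c (aux _ _)
  refine ⟨a, ?_, ?_⟩
  · show f.IsRoot a
    suffices ∀ n, f.eval a ≡ 0 [SMOD (I ^ n • ⊤ : Ideal R)] by exact IsHausdorff.haus' _ this
    intro n
    specialize ha n
    rw [← Ideal.one_eq_top, Ideal.smul_eq_mul, mul_one] at ha ⊢
    refine (ha.symm.eval f).trans ?_
    rw [SModEq.zero]
    exact Ideal.pow_le_pow_right le_self_add (hfcI _)
  · show a - a₀ ∈ I
    specialize ha (0 + 1)
    rw [hc, pow_one, ← Ideal.one_eq_top, Ideal.smul_eq_mul, mul_one, sub_eq_add_neg] at ha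
    rw [← SModEq.sub_mem, ← add_zero a₀]
    refine ha.symm.trans (SModEq.rfl.add ?_)
    rw [SModEq.zero, Ideal.neg_mem_iff]
    exact Ideal.mul_mem_right _ _ h₁

/-- a simple root of the reduction lifts to a root in the ring of power series -/
theorem hensel_ps (F : Type) [Field F] (f : (PowerSeries F)[X]) (b : F)
    (h1 : eval₂ (PowerSeries.constantCoeff (R := F)) b f = 0)
    (h2 : eval₂ (PowerSeries.constantCoeff (R := F)) b (derivative f) ≠ 0) :
    ∃ a : PowerSeries F, f.eval a = 0 := by
  have hc : ∀ g : (PowerSeries F)[X], PowerSeries.constantCoeff (g.eval (PowerSeries.C b)) =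
      eval₂ (PowerSeries.constantCoeff (R := F)) b g := by
    intro g
    have := eval₂_at_apply (PowerSeries.constantCoeff (R := F)) (PowerSeries.C b) (p := g)
    rw [PowerSeries.constantCoeff_C] at this
    exact this.symm
  obtain ⟨a, ha, _⟩ := hensel (PowerSeries F) (Ideal.span {PowerSeries.X}) f (PowerSeries.C b)
    (by rw [Ideal.mem_span_singleton, PowerSeries.X_dvd_iff, hc, h1])
    (by
      apply IsUnit.map
      rw [PowerSeries.isUnit_iff_constantCoeff, hc]
      exact isUnit_iff_ne_zero.2 h2)
  exact ⟨a, ha⟩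

theorem countable_nf (F : Type) [Field F] [NumberField F] : Countable F := by
  have h := Algebraic.countable ℚ F
  have h1 : {x : F | IsAlgebraic ℚ x} = Set.univ :=
    Set.eq_univ_of_forall fun x => Algebra.IsAlgebraic.isAlgebraic x
  rw [h1] at h
  exact Set.countable_univ_iff.1 h

/-- evaluation commutes with algebra homomorphisms -/
theorem ev_hom {K A B : Type} [Field K] [CommRing A] [CommRing B] [Algebra K A] [Algebra K B]
    {d : ℕ} (x : Fin d → A) (y : Fin d → B) (g : A →ₐ[K] B) (h : ∀ i, g (x i) = y i) (θ : A)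
    (P : Polynomial (MvPolynomial (Fin d) K)) :
    g (eval₂ (MvPolynomial.aeval (R := K) x : MvPolynomial (Fin d) K →+* A) θ P) =
      eval₂ (MvPolynomial.aeval (R := K) y : MvPolynomial (Fin d) K →+* B) (g θ) P := by
  have h1 := hom_eval₂ P (MvPolynomial.aeval (R := K) x : MvPolynomial (Fin d) K →+* A)
    (g : A →+* B) θ
  have h2 : (g : A →+* B).comp (MvPolynomial.aeval (R := K) x : MvPolynomial (Fin d) K →+* A) =
      (MvPolynomial.aeval (R := K) y : MvPolynomial (Fin d) K →+* B) := by
    apply MvPolynomial.ringHom_ext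
    · intro r
      simp
    · intro i
      simp [h]
  rw [h2] at h1
  exact h1

theorem algK {K F : Type} [Field K] [Field F] [Algebra K F] (r : K) :
    algebraMap K (LaurentSeries F) r = HahnSeries.ofPowerSeries ℤ F
      (algebraMap K (PowerSeries F) r) := HahnSeries.algebraMap_apply' ℤ r

theorem algF {K F : Type} [Field K] [Field F] [Algebra K F] (r : K) :
    algebraMap K (LaurentSeries F) r = algebraMap F (LaurentSeries F) (algebraMap K F r) := by
  rw [algK, algK]
  congr 1
  rw [PowerSeries.algebraMap_apply, PowerSeries.algebraMap_apply]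
  rfl

/-- specialization at a point over a number field -/
theorem step1 (K k : Type) [Field K] [NumberField K] [Field k] [Algebra K k] (d : ℕ)
    (x : Fin d → k) (θ : k) (P : Polynomial (MvPolynomial (Fin d) K))
    (hP : eval₂ (MvPolynomial.aeval (R := K) x : MvPolynomial (Fin d) K →+* k) θ P = 0)
    (hP' : eval₂ (MvPolynomial.aeval (R := K) x : MvPolynomial (Fin d) K →+* k) θ
      (derivative P) ≠ 0) :
    ∃ (F : Type) (_ : Field F) (_ : NumberField F) (_ : Algebra K F) (a : Fin d → F) (b : F),
      eval₂ (MvPolynomial.aeval (R := K) a : MvPolynomial (Fin d) K →+* F) b P = 0 ∧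
      eval₂ (MvPolynomial.aeval (R := K) a : MvPolynomial (Fin d) K →+* F) b
        (derivative P) ≠ 0 := by
  classical
  obtain ⟨w, hw⟩ : ∃ w, w = eval₂ (MvPolynomial.aeval (R := K) x : MvPolynomial (Fin d) K →+* k) θ
    (derivative P) := ⟨_, rfl⟩
  rw [← hw] at hP'
  -- the algebra `A`
  let st : Set k := insert θ (insert w⁻¹ (Set.range x))
  let A : Subalgebra K k := Algebra.adjoin K st
  have hst : st.Finite := ((Set.finite_range x).insert _).insert _
  have hfg : A.FG := ⟨hst.toFinset, by rw [Set.Finite.coe_toFinset]⟩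
  have hft : Algebra.FiniteType K A := (Subalgebra.fg_iff_finiteType A).1 hfg
  have hθA : θ ∈ A := Algebra.subset_adjoin (Set.mem_insert _ _)
  have hwA : w⁻¹ ∈ A := Algebra.subset_adjoin (Set.mem_insert_of_mem _ (Set.mem_insert _ _))
  have hxA : ∀ i, x i ∈ A := fun i => Algebra.subset_adjoin
    (Set.mem_insert_of_mem _ (Set.mem_insert_of_mem _ (Set.mem_range_self i)))
  let xA : Fin d → A := fun i => ⟨x i, hxA i⟩
  let θA : A := ⟨θ, hθA⟩
  let uA : A := ⟨w⁻¹, hwA⟩
  have e1 : eval₂ (MvPolynomial.aeval (R := K) xA : MvPolynomial (Fin d) K →+* A) θA P = 0 := by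
    apply Subtype.val_injective
    exact (ev_hom xA x A.val (fun _ => rfl) θA P).trans hP
  have e2 : eval₂ (MvPolynomial.aeval (R := K) xA : MvPolynomial (Fin d) K →+* A) θA
      (derivative P) * uA = 1 := by
    apply Subtype.val_injective
    have h1 : A.val (eval₂ (MvPolynomial.aeval (R := K) xA : MvPolynomial (Fin d) K →+* A) θA
      (derivative P)) = w := (ev_hom xA x A.val (fun _ => rfl) θA (derivative P)).trans hw.symm
    show A.val (_ * uA) = A.val 1
    rw [map_mul, h1, map_one]
    exact mul_inv_cancel₀ hP'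
  -- the number field
  obtain ⟨m, hm⟩ := Ideal.exists_maximal A
  let F : Type := A ⧸ m
  let fF : Field F := Ideal.Quotient.field m
  have hfin : Module.Finite K F := finite_of_finite_type_of_isJacobsonRing K F
  have hNF : NumberField F := NumberField.of_module_finite K F
  let π : A →ₐ[K] F := Ideal.Quotient.mkₐ K m
  let a : Fin d → F := fun i => π (xA i)
  let b : F := π θA
  have f1 : eval₂ (MvPolynomial.aeval (R := K) a : MvPolynomial (Fin d) K →+* F) b P = 0 := by
    rw [← ev_hom xA a π (fun _ => rfl) θA P, e1, map_zero]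
  have f2 : eval₂ (MvPolynomial.aeval (R := K) a : MvPolynomial (Fin d) K →+* F) b
      (derivative P) ≠ 0 := by
    rw [← ev_hom xA a π (fun _ => rfl) θA (derivative P)]
    intro h0
    have h1 := congrArg π e2
    rw [map_mul, h0, zero_mul, map_one] at h1
    exact zero_ne_one h1
  exact ⟨F, fF, hNF, inferInstance, a, b, f1, f2⟩

/-- lifting to power series -/
theorem step2 (hALI : S_ALI) (K F : Type) [Field K] [Field F] [Countable F] [Algebra K F] (d : ℕ)
    (P : Polynomial (MvPolynomial (Fin d) K)) (a : Fin d → F) (b : F)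
    (f1 : eval₂ (MvPolynomial.aeval (R := K) a : MvPolynomial (Fin d) K →+* F) b P = 0)
    (f2 : eval₂ (MvPolynomial.aeval (R := K) a : MvPolynomial (Fin d) K →+* F) b
      (derivative P) ≠ 0) :
    ∃ (t : Fin d → LaurentSeries F) (ϑ : LaurentSeries F), AlgebraicIndependent K t ∧
      eval₂ (MvPolynomial.aeval (R := K) t : MvPolynomial (Fin d) K →+* LaurentSeries F) ϑ P =
        0 := by
  obtain ⟨t, ht, hti⟩ := hALI F d a
  let tev : MvPolynomial (Fin d) K →+* PowerSeries F :=
    (MvPolynomial.aeval (R := K) t : MvPolynomial (Fin d) K →ₐ[K] PowerSeries F)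
  have hcc : (PowerSeries.constantCoeff (R := F)).comp tev =
      (MvPolynomial.aeval (R := K) a : MvPolynomial (Fin d) K →+* F) := by
    apply MvPolynomial.ringHom_ext
    · intro r
      simp [tev, PowerSeries.algebraMap_apply]
    · intro i
      simp [tev, ht]
  obtain ⟨ϑ, hϑ⟩ := hensel_ps F (P.map tev) b (by rw [eval₂_map, hcc]; exact f1)
    (by rw [derivative_map, eval₂_map, hcc]; exact f2)
  rw [eval_map] at hϑ
  have htow : @IsScalarTower K F (LaurentSeries F) Algebra.toSMul Algebra.toSMul Algebra.toSMul :=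
    IsScalarTower.of_algebraMap_eq algF
  have htK : AlgebraicIndependent K (fun i => HahnSeries.ofPowerSeries ℤ F (t i)) :=
    hti.restrictScalars (algebraMap K F).injective
  refine ⟨_, HahnSeries.ofPowerSeries ℤ F ϑ, htK, ?_⟩
  have h1 := hom_eval₂ P tev (HahnSeries.ofPowerSeries ℤ F) ϑ
  rw [hϑ, map_zero] at h1
  have h2 : (HahnSeries.ofPowerSeries ℤ F).comp tev =
      (MvPolynomial.aeval (R := K) (fun i => HahnSeries.ofPowerSeries ℤ F (t i)) :
        MvPolynomial (Fin d) K →+* LaurentSeries F) := by
    apply MvPolynomial.ringHom_ext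
    · intro r
      have h3 : tev (MvPolynomial.C r) = algebraMap K (PowerSeries F) r :=
        MvPolynomial.aeval_C _ _
      have h4 : (MvPolynomial.aeval (R := K) (fun i => HahnSeries.ofPowerSeries ℤ F (t i)) :
        MvPolynomial (Fin d) K →+* LaurentSeries F) (MvPolynomial.C r) =
          algebraMap K (LaurentSeries F) r := MvPolynomial.aeval_C _ _
      rw [h4, RingHom.comp_apply, h3, algK]
    · intro i
      have h3 : tev (MvPolynomial.X i) = t i := MvPolynomial.aeval_X _ _
      have h4 : (MvPolynomial.aeval (R := K) (fun i => HahnSeries.ofPowerSeries ℤ F (t i)) :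
        MvPolynomial (Fin d) K →+* LaurentSeries F) (MvPolynomial.X i) =
          HahnSeries.ofPowerSeries ℤ F (t i) := MvPolynomial.aeval_X _ _
      rw [h4, RingHom.comp_apply, h3]
  rw [← h2]
  exact h1.symm

theorem t_EXI : S_PRM → S_ALI → S_EXI := by
  intro hPRM hALI K k _ _ _ _ T hT
  obtain ⟨d, x, θ, P, hP, hP', hlift⟩ := hPRM K k T
  obtain ⟨F, _, hNF, _, a, b, f1, f2⟩ := step1 K k d x θ P hP hP'
  have hcount : Countable F := countable_nf F
  obtain ⟨t, ϑ, htK, hroot⟩ := step2 hALI K F d P a b f1 f2
  obtain ⟨ψ⟩ := hlift (LaurentSeries F) t ϑ htK hroot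
  let e : k →ₐ[K] IntermediateField.adjoin K (T : Set k) :=
    ((IntermediateField.equivOfEq hT).symm.toAlgHom).comp
      (IntermediateField.topEquiv (F := K) (E := k)).symm.toAlgHom
  refine ⟨F, inferInstance, hNF, inferInstance,
    ((ψ.comp e : k →ₐ[K] LaurentSeries F) : k →+* LaurentSeries F), fun r => ?_⟩
  rw [← algF]
  exact (ψ.comp e).commutes r

end Pool.Agent.N890.LP.EXI
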