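import Pool.Agent.N890.LP.Stm

/-!
Project LP (helper890), pages MP_8312c9_nt and MP_e66f84_ag: Selmer classes from a subfield of
`F((T))` to `F`. Piece LAU (helper835; the first two lemmas are from `FG/STEP.lean`).
-/

set_option autoImplicit false

namespace Pool.Agent.N890.LP.LAU

open NumberField WeierstrassCurve IsDedekindDomain Pool.Agent.TH942 Pool.Agent.TH954
open Pool.Agent.N890.FG Pool.Agent.N890.LP

/-- two embeddings of the algebraic closure of `k` which extend the same embedding of `k` -/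
lemma exists_ext {k L : Type} [Field k] [Field L] (ι ι' : AlgebraicClosure k →+* AlgebraicClosure L)
    (h : ∀ x, ι (algebraMap k _ x) = ι' (algebraMap k _ x)) :
    ∃ g : AlgebraicClosure k ≃ₐ[k] AlgebraicClosure k, ∀ z, ι (g z) = ι' z := by
  let _ : Algebra k (AlgebraicClosure L) := (ι.comp (algebraMap k _)).toAlgebra
  let f : AlgebraicClosure k →ₐ[k] AlgebraicClosure L := { ι with commutes' := fun x => rfl }
  let f' : AlgebraicClosure k →ₐ[k] AlgebraicClosure L :=
    { ι' with commutes' := fun x => (h x).symm }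
  let _ : Algebra (AlgebraicClosure k) (AlgebraicClosure L) := f.toRingHom.toAlgebra
  have : IsScalarTower k (AlgebraicClosure k) (AlgebraicClosure L) :=
    IsScalarTower.of_algebraMap_eq' f.comp_algebraMap.symm
  refine ⟨f'.restrictNormal' (AlgebraicClosure k), fun z => ?_⟩
  exact AlgHom.restrictNormal_commutes f' (AlgebraicClosure k) z

section pts

variable {F : Type} [Field F] {E : WeierstrassCurve F}

open scoped Classical in
lemma act_pm_gen {k₁ k₂ : Type} [Field k₁] [Field k₂] [Algebra F k₁] [Algebra F k₂]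
    (f : AlgebraicClosure k₁ →ₐ[F] AlgebraicClosure k₂)
    (σ₂ : AlgebraicClosure k₂ ≃ₐ[k₂] AlgebraicClosure k₂)
    (σ₁ : AlgebraicClosure k₁ ≃ₐ[k₁] AlgebraicClosure k₁) (h : ∀ z, f (σ₁ z) = σ₂ (f z))
    (R : AlgPt E k₁) : act E σ₂ (pm E f R) = pm E f (act E σ₁ R) := by
  unfold act
  rw [pm_pm, pm_pm]
  congr 2
  apply AlgHom.ext
  intro z
  exact (h z).symm

end pts

open scoped Classical in
theorem t_LAU : S_EQV → Pool.Agent.N890.FG.S_CHG → Pool.Agent.N890.FG.S_TOR → S_LAU := by
  intro hEQV hCHG hTOR F k' _ _ _ _ T hT hLau r a b hdisc N hN X ⟨ξ, hcoc, hN0, hloc⟩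
  have hc' : CharZero k' := charZero_of_injective_algebraMap (algebraMap F k').injective
  obtain ⟨e, h, he, hcont, hemb⟩ := hEQV F k' T hT hLau
  -- the fields of definition
  choose hcoc1 Mi hMfin hMi using hcoc
  have hMfin' : FiniteDimensional k' (⨆ i, Mi i : IntermediateField k' (AlgebraicClosure k')) :=
    IntermediateField.finiteDimensional_iSup_of_finite
  -- the descended cocycle
  choose R hR using fun i s => hTOR F F k' e e (fun _ => rfl) (a i) (b i) (hdisc i) N hN
    (ξ i (h s)) (hN0 i (h s))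
  have hinj : ∀ i, Function.Injective (pm (sw (a i : F) (b i : F)) e) := fun i => pm_injective e
  refine ⟨R, fun i => ⟨fun s t => ?_, ?_⟩, fun i s => ?_, fun w φ₁ => ?_⟩
  · apply hinj i
    rw [map_add, hR, hR, map_mul, hcoc1 i]
    congr 1
    rw [← hR i t, act_pm_gen e (h s) s (fun z => (he s z).symm)]
  · obtain ⟨M', hM', h2⟩ := hcont (Mi i) (hMfin i)
    refine ⟨M', hM', fun s t hst => ?_⟩
    apply hinj i
    rw [hR, hR]
    exact hMi i _ _ (h2 s t hst)
  · apply hinj i
    rw [map_zero, map_nsmul, hR]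
    exact hN0 i (h s)
  · -- the local condition
    obtain ⟨φ, ι, hι, hιM⟩ := hemb w _ hMfin'
    obtain ⟨ι', P, Q, hι', hX, hQ, hrel⟩ := hloc w φ
    have hex : ∀ i, ∃ Q' : AlgPt (sw (a i : F) (b i : F)) (w.adicCompletion F),
        N • Q' = incl (sw (a i : F) (b i : F)) (w.adicCompletion F) (P i) ∧
        ∀ (σ : AlgebraicClosure (w.adicCompletion F) ≃ₐ[w.adicCompletion F]
            AlgebraicClosure (w.adicCompletion F))
          (τ : AlgebraicClosure k' ≃ₐ[k'] AlgebraicClosure k'),
          (∀ z, ι (τ z) = σ (ι z)) →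
          pm (sw (a i : F) (b i : F)) ι (ξ i τ) = act (sw (a i : F) (b i : F)) σ Q' - Q' :=
      fun i => hCHG F k' (w.adicCompletion F) (sw (a i : F) (b i : F)) N (ξ i) (hcoc1 i) (hN0 i)
        ι' ι (φ : k' →+* w.adicCompletion F) hι' hι (P i) (Q i) (hQ i) (hrel i)
    choose Q' hQ' hrel' using hex
    refine ⟨ι.comp e, P, Q', fun x => ?_, hX, hQ', fun i σ τ hστ => ?_⟩
    · rw [AlgHom.commutes, IsScalarTower.algebraMap_apply F (w.adicCompletion F)
        (AlgebraicClosure (w.adicCompletion F))]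
      congr 1
      exact (φ₁.commutes x).symm
    · obtain ⟨τ', hτ'⟩ := exists_ext ι.toRingHom ((σ : AlgebraicClosure (w.adicCompletion F) →+*
        AlgebraicClosure (w.adicCompletion F)).comp ι.toRingHom) (by
          intro x
          change ι (algebraMap k' _ x) = σ (ι (algebraMap k' _ x))
          rw [hι, σ.commutes])
      have hτ'' : ∀ z, ι (τ' z) = σ (ι z) := hτ'
      have h3 : ∀ x ∈ (⨆ i, Mi i : IntermediateField k' (AlgebraicClosure k')), h τ x = τ' x := by
        intro x hx
        have h6 : ι (h τ x) = ι (τ' x) := by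
          rw [hιM σ τ hστ x hx, hτ'']
        exact (ι : AlgebraicClosure k' →+* AlgebraicClosure (w.adicCompletion F)).injective h6
      have h4 : ξ i (h τ) = ξ i τ' := hMi i _ _ fun x hx => h3 x ((le_iSup Mi i) hx)
      have h5 : pm (sw (a i : F) (b i : F)) (ι.comp e) (R i τ) =
          pm (sw (a i : F) (b i : F)) ι (ξ i (h τ)) := by
        rw [← hR, pm_pm]
      rw [h5, h4]
      exact hrel' i σ τ' hτ''

end Pool.Agent.N890.LP.LAU
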