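import Pool.Agent.N890.LP.Stm0

/-!
Project LP, leaf NW1 (helper249): approximate roots by evaluation of truncated Laurent series.

`F[T;T⁻¹]` is embedded in `F((T))` by `emb` and evaluated at the powers of the unit `u` by `lev`. The
values of polynomials at `(x, θ)` depend continuously on `(x, θ)` (`Ct`), so `x` and `θ` can be
replaced by Laurent polynomials; a Laurent polynomial of larger order has a smaller value at `u ^ k`
for all large `k` (`compare`).
-/

set_option autoImplicit false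

open Polynomial

namespace Pool.Agent.N890.LP.NW1

open Pool.Agent.N890.LP

section lau
variable (F : Type) [Field F]

theorem algMap (a : F) : algebraMap F (LaurentSeries F) a = HahnSeries.C a := by
  rw [HahnSeries.algebraMap_apply']
  exact HahnSeries.ofPowerSeries_C a

/-- the powers of `T` -/
noncomputable def tmon : Multiplicative ℤ →* LaurentSeries F where
  toFun n := HahnSeries.single n.toAdd 1
  map_one' := rfl
  map_mul' a b := by rw [HahnSeries.single_mul_single, toAdd_mul, mul_one]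

/-- Laurent polynomials as Laurent series -/
noncomputable def emb : AddMonoidAlgebra F ℤ →ₐ[F] LaurentSeries F :=
  AddMonoidAlgebra.lift F (LaurentSeries F) ℤ (tmon F)

theorem emb_single (n : ℤ) (a : F) : emb F (AddMonoidAlgebra.single n a) = HahnSeries.single n a := by
  rw [emb, AddMonoidAlgebra.lift_single, Algebra.smul_def, algMap]
  show HahnSeries.C a * HahnSeries.single n (1 : F) = _
  rw [HahnSeries.C_apply, HahnSeries.single_mul_single, zero_add, mul_one]

theorem emb_coeff (g : AddMonoidAlgebra F ℤ) (n : ℤ) : (emb F g).coeff n = g.coeff n := by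
  induction g using AddMonoidAlgebra.induction_linear with
  | zero => simp
  | add f g hf hg => simp [hf, hg]
  | single a b =>
    rw [emb_single, HahnSeries.coeff_single, AddMonoidAlgebra.coeff_single, Finsupp.single_apply]
    rcases eq_or_ne n a with rfl | h
    · rw [if_pos rfl, if_pos rfl]
    · rw [if_neg h, if_neg (Ne.symm h)]

/-- the order -/
def O (m : ℤ) (z : LaurentSeries F) : Prop := (m : WithTop ℤ) ≤ HahnSeries.addVal ℤ F z

variable {F}

theorem O_iff {m : ℤ} {z : LaurentSeries F} : O F m z ↔ ∀ l : ℤ, l < m → z.coeff l = 0 := by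
  unfold O
  rw [HahnSeries.addVal_apply, HahnSeries.le_orderTop_iff_forall]
  constructor
  · intro h l hl
    exact h l (by exact_mod_cast hl)
  · intro h l hl
    exact h l (by exact_mod_cast hl)

theorem O_mono {m n : ℤ} (h : m ≤ n) {z : LaurentSeries F} (hz : O F n z) : O F m z :=
  le_trans (by exact_mod_cast h) hz

theorem O_add {m : ℤ} {y z : LaurentSeries F} (hy : O F m y) (hz : O F m z) : O F m (y + z) :=
  le_trans (le_min hy hz) ((HahnSeries.addVal ℤ F).map_add y z)

theorem O_neg {m : ℤ} {y : LaurentSeries F} (hy : O F m y) : O F m (-y) := by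
  unfold O
  rw [(HahnSeries.addVal ℤ F).map_neg]
  exact hy

theorem O_sub {m : ℤ} {y z : LaurentSeries F} (hy : O F m y) (hz : O F m z) : O F m (y - z) := by
  rw [sub_eq_add_neg]
  exact O_add hy (O_neg hz)

theorem O_mul {m n : ℤ} {y z : LaurentSeries F} (hy : O F m y) (hz : O F n z) :
    O F (m + n) (y * z) := by
  unfold O
  rw [(HahnSeries.addVal ℤ F).map_mul, WithTop.coe_add]
  exact add_le_add hy hz

theorem O_zero (m : ℤ) : O F m 0 := O_iff.2 fun l _ => by simp

theorem O_ex (z : LaurentSeries F) : ∃ c : ℕ, O F (-c) z := by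
  by_cases hz : z = 0
  · exact ⟨0, by rw [hz]; exact O_zero _⟩
  · refine ⟨z.order.natAbs, O_iff.2 fun l hl => ?_⟩
    refine HahnSeries.coeff_eq_zero_of_lt_order ?_
    omega

/-- the approximation by Laurent polynomials -/
theorem approx (z : LaurentSeries F) (n : ℤ) : ∃ g : AddMonoidAlgebra F ℤ, O F n (z - emb F g) := by
  by_cases hz : z = 0
  · exact ⟨0, by rw [hz, map_zero, sub_zero]; exact O_zero _⟩
  refine ⟨∑ l ∈ Finset.Ico z.order n, AddMonoidAlgebra.single l (z.coeff l), O_iff.2 fun l hl => ?_⟩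
  rw [HahnSeries.coeff_sub, map_sum]
  simp only [emb_single]
  rw [HahnSeries.coeff_sum]
  simp only [HahnSeries.coeff_single]
  by_cases h : z.order ≤ l
  · rw [Finset.sum_eq_single l]
    · simp
    · intro b _ hb
      rw [if_neg]
      exact fun h => hb h.symm
    · intro h'
      exact absurd (Finset.mem_Ico.2 ⟨h, hl⟩) h'
  · rw [HahnSeries.coeff_eq_zero_of_lt_order (not_le.1 h), zero_sub, neg_eq_zero]
    refine Finset.sum_eq_zero fun b hb => ?_
    rw [Finset.mem_Ico] at hb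
    rw [if_neg]
    omega

end lau

section cts

variable {F : Type} [Field F] {d : ℕ}

/-- continuity at `(x, θ)` -/
def Ct (x : Fin d → LaurentSeries F) (θ : LaurentSeries F)
    (f : (Fin d → LaurentSeries F) → LaurentSeries F → LaurentSeries F) : Prop :=
  ∃ b : ℕ, ∀ n : ℕ, ∀ x' θ', (∀ i, O F n (x i - x' i)) → O F n (θ - θ') →
    O F ((n : ℤ) - b) (f x θ - f x' θ')

variable {x : Fin d → LaurentSeries F} {θ : LaurentSeries F}

theorem ct_const (c : LaurentSeries F) : Ct x θ fun _ _ => c :=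
  ⟨0, fun n x' θ' _ _ => by rw [sub_self]; exact O_zero _⟩

theorem ct_x (i : Fin d) : Ct x θ fun x' _ => x' i :=
  ⟨0, fun n x' θ' h _ => by simpa using h i⟩

theorem ct_θ : Ct x θ fun _ θ' => θ' :=
  ⟨0, fun n x' θ' _ h => by simpa using h⟩

theorem Ct.add {f g : (Fin d → LaurentSeries F) → LaurentSeries F → LaurentSeries F}
    (hf : Ct x θ f) (hg : Ct x θ g) : Ct x θ fun x' θ' => f x' θ' + g x' θ' := by
  obtain ⟨b, hb⟩ := hf
  obtain ⟨c, hc⟩ := hg
  refine ⟨b + c, fun n x' θ' h1 h2 => ?_⟩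
  have e : f x θ + g x θ - (f x' θ' + g x' θ') = (f x θ - f x' θ') + (g x θ - g x' θ') := by ring
  show O F _ (f x θ + g x θ - (f x' θ' + g x' θ'))
  rw [e]
  exact O_add (O_mono (by push_cast; omega) (hb n x' θ' h1 h2))
    (O_mono (by push_cast; omega) (hc n x' θ' h1 h2))

theorem Ct.mul {f g : (Fin d → LaurentSeries F) → LaurentSeries F → LaurentSeries F}
    (hf : Ct x θ f) (hg : Ct x θ g) : Ct x θ fun x' θ' => f x' θ' * g x' θ' := by
  obtain ⟨b, hb⟩ := hf
  obtain ⟨c, hc⟩ := hg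
  obtain ⟨p, hp⟩ := O_ex (f x θ)
  obtain ⟨q, hq⟩ := O_ex (g x θ)
  refine ⟨b + c + p + q, fun n x' θ' h1 h2 => ?_⟩
  have h3 := hb n x' θ' h1 h2
  have h4 := hc n x' θ' h1 h2
  have h5 : O F (-(c + q : ℕ)) (g x' θ') := by
    have e : g x' θ' = g x θ - (g x θ - g x' θ') := by ring
    rw [e]
    exact O_sub (O_mono (by push_cast; omega) hq) (O_mono (by push_cast; omega) h4)
  have e : f x θ * g x θ - f x' θ' * g x' θ' =
      f x θ * (g x θ - g x' θ') + (f x θ - f x' θ') * g x' θ' := by ring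
  show O F _ (f x θ * g x θ - f x' θ' * g x' θ')
  rw [e]
  exact O_add (O_mono (by push_cast; omega) (O_mul hp h4))
    (O_mono (by push_cast; omega) (O_mul h3 h5))

theorem Ct.pow {f : (Fin d → LaurentSeries F) → LaurentSeries F → LaurentSeries F}
    (hf : Ct x θ f) (i : ℕ) : Ct x θ fun x' θ' => f x' θ' ^ i := by
  induction i with
  | zero =>
    simp only [pow_zero]
    exact ct_const 1
  | succ i ih =>
    simp only [pow_succ]
    exact ih.mul hf

/-- the evaluation -/
noncomputable def ev {A : Type} [CommRing A] [Algebra F A] (y : Fin d → A) (r : A)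
    (Q : Polynomial (MvPolynomial (Fin d) F)) : A :=
  eval₂ (MvPolynomial.aeval (R := F) y : MvPolynomial (Fin d) F →+* A) r Q

theorem ev_map {A B : Type} [CommRing A] [Algebra F A] [CommRing B] [Algebra F B] (φ : A →ₐ[F] B)
    (y : Fin d → A) (r : A) (Q : Polynomial (MvPolynomial (Fin d) F)) :
    φ (ev y r Q) = ev (fun i => φ (y i)) (φ r) Q := by
  unfold ev
  have h := Polynomial.hom_eval₂ Q (MvPolynomial.aeval (R := F) y : MvPolynomial (Fin d) F →+* A)
    (φ : A →+* B) r
  have e : (φ : A →+* B).comp (MvPolynomial.aeval (R := F) y : MvPolynomial (Fin d) F →+* A) =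
      (MvPolynomial.aeval (R := F) (fun i => φ (y i)) : MvPolynomial (Fin d) F →+* B) := by
    apply MvPolynomial.ringHom_ext
    · intro a
      simp
    · intro i
      simp
  rw [e] at h
  exact h

theorem ct_ev (Q : Polynomial (MvPolynomial (Fin d) F)) :
    Ct x θ fun x' θ' => ev x' θ' Q := by
  unfold ev
  induction Q using Polynomial.induction_on with
  | C a =>
    simp only [eval₂_C]
    induction a using MvPolynomial.induction_on with
    | C a =>
      simp only [RingHom.coe_coe, MvPolynomial.aeval_C]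
      exact ct_const _
    | add p q hp hq =>
      simp only [map_add]
      exact hp.add hq
    | mul_X p i hp =>
      simp only [map_mul, RingHom.coe_coe, MvPolynomial.aeval_X] at hp ⊢
      exact hp.mul (ct_x i)
  | add p q hp hq =>
    simp only [eval₂_add]
    exact hp.add hq
  | monomial n a h =>
    have e : (C a * X ^ (n + 1) : Polynomial (MvPolynomial (Fin d) F)) = (C a * X ^ n) * X := by
      rw [pow_succ, mul_assoc]
    rw [e]
    simp only [eval₂_mul_X]
    exact h.mul ct_θ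

end cts

section evl

variable {F L : Type} [Field F] [Field L] [Algebra F L]

/-- the evaluation of Laurent polynomials -/
noncomputable def lev (F : Type) {L : Type} [Field F] [Field L] [Algebra F L] (y : Lˣ) :
    AddMonoidAlgebra F ℤ →ₐ[F] L :=
  AddMonoidAlgebra.lift F L ℤ ((Units.coeHom L).comp (zpowersHom Lˣ y))

theorem lev_single (y : Lˣ) (n : ℤ) (a : F) :
    lev F y (AddMonoidAlgebra.single n a) = algebraMap F L a * (y : L) ^ n := by
  rw [lev, AddMonoidAlgebra.lift_single, Algebra.smul_def]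
  simp

theorem lev_apply (y : Lˣ) (g : AddMonoidAlgebra F ℤ) :
    lev F y g = ∑ l ∈ g.coeff.support, algebraMap F L (g.coeff l) * (y : L) ^ l := by
  rw [lev, AddMonoidAlgebra.lift_apply', Finsupp.sum]
  refine Finset.sum_congr rfl fun l _ => ?_
  simp

variable (v : AbsoluteValue L ℝ)

/-- the sum of the values of the coefficients -/
noncomputable def cn (g : AddMonoidAlgebra F ℤ) : ℝ :=
  ∑ l ∈ g.coeff.support, v (algebraMap F L (g.coeff l))

theorem lev_bound {u : Lˣ} (hu : v (u : L) ≤ 1) (g : AddMonoidAlgebra F ℤ) {m : ℤ}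
    (hm : ∀ l, g.coeff l ≠ 0 → m ≤ l) (k : ℕ) :
    v (lev F (u ^ k) g) ≤ cn v g * (v (u : L) ^ k) ^ m := by
  have hu0 : 0 < v (u : L) := v.pos u.ne_zero
  have hk0 : 0 < v (u : L) ^ k := pow_pos hu0 k
  have hk1 : v (u : L) ^ k ≤ 1 := pow_le_one₀ hu0.le hu
  rw [lev_apply, cn, Finset.sum_mul]
  refine (v.sum_le _ _).trans (Finset.sum_le_sum fun l hl => ?_)
  rw [map_mul, map_zpow₀, Units.val_pow_eq_pow_val, map_pow]
  refine mul_le_mul_of_nonneg_left ?_ (v.nonneg _)
  exact zpow_le_zpow_right_of_le_one₀ hk0 hk1 (hm l (Finsupp.mem_support_iff.1 hl))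

theorem compare (hv : ∀ x y, v (x + y) ≤ max (v x) (v y)) {u : Lˣ} (hu : v (u : L) < 1)
    (G H : AddMonoidAlgebra F ℤ) (h : ∃ e : ℤ, H.coeff e ≠ 0 ∧ (∀ l, H.coeff l ≠ 0 → e ≤ l) ∧
      ∀ l, G.coeff l ≠ 0 → e + 1 ≤ l) :
    ∃ K : ℕ, ∀ k, K ≤ k → v (lev F (u ^ k) G) < v (lev F (u ^ k) H) := by
  obtain ⟨e, h1, h2, h3⟩ := h
  have hu0 : 0 < v (u : L) := v.pos u.ne_zero
  set c := H.coeff e with hc
  set H1 : AddMonoidAlgebra F ℤ := H - AddMonoidAlgebra.single e c with hH1
  have h4 : ∀ l, H1.coeff l ≠ 0 → e + 1 ≤ l := by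
    intro l hl
    rcases eq_or_ne l e with rfl | hle
    · exfalso
      apply hl
      rw [hH1, AddMonoidAlgebra.coeff_sub, AddMonoidAlgebra.coeff_single, Finsupp.sub_apply,
        Finsupp.single_eq_same, hc, sub_self]
    · have : H.coeff l ≠ 0 := by
        intro h0
        apply hl
        rw [hH1, AddMonoidAlgebra.coeff_sub, AddMonoidAlgebra.coeff_single, Finsupp.sub_apply,
          Finsupp.single_apply, if_neg (Ne.symm hle), h0, sub_self]
      have := h2 l this
      omega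
  have hvc : 0 < v (algebraMap F L c) := v.pos (by rwa [Ne, map_eq_zero])
  have ht : Filter.Tendsto (fun k : ℕ => (cn v G + cn v H1) * v (u : L) ^ k) Filter.atTop
      (nhds ((cn v G + cn v H1) * 0)) :=
    (tendsto_pow_atTop_nhds_zero_of_lt_one hu0.le hu).const_mul _
  rw [mul_zero] at ht
  obtain ⟨K, hK⟩ := Filter.eventually_atTop.1 (ht.eventually_lt_const hvc)
  refine ⟨K, fun k hk => ?_⟩
  have hk0 : 0 < v (u : L) ^ k := pow_pos hu0 k
  have h5 := hK k hk
  have h6 : ∀ g : AddMonoidAlgebra F ℤ, 0 ≤ cn v g := fun g =>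
    Finset.sum_nonneg fun _ _ => v.nonneg _
  have h7 := lev_bound v hu.le G h3 k
  have h8 := lev_bound v hu.le H1 h4 k
  have h9 : 0 < (v (u : L) ^ k) ^ e := zpow_pos hk0 e
  rw [zpow_add₀ hk0.ne', zpow_one] at h7 h8
  have h10 : v (lev F (u ^ k) G) < v (algebraMap F L c) * (v (u : L) ^ k) ^ e := by
    refine h7.trans_lt ?_
    have : cn v G * v (u : L) ^ k < v (algebraMap F L c) := by
      nlinarith [h6 H1]
    nlinarith
  have h11 : v (lev F (u ^ k) H1) < v (algebraMap F L c) * (v (u : L) ^ k) ^ e := by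
    refine h8.trans_lt ?_
    have : cn v H1 * v (u : L) ^ k < v (algebraMap F L c) := by
      nlinarith [h6 G]
    nlinarith
  have h12 : v (lev F (u ^ k) (AddMonoidAlgebra.single e c)) =
      v (algebraMap F L c) * (v (u : L) ^ k) ^ e := by
    rw [lev_single, map_mul, map_zpow₀, Units.val_pow_eq_pow_val, map_pow]
  have h13 : lev F (u ^ k) (AddMonoidAlgebra.single e c) =
      lev F (u ^ k) H + -lev F (u ^ k) H1 := by
    rw [hH1, map_sub]
    ring
  have h14 := hv (lev F (u ^ k) H) (-lev F (u ^ k) H1)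
  rw [← h13, h12, v.map_neg, le_max_iff] at h14
  rcases h14 with h14 | h14
  · exact h10.trans_le h14
  · exact absurd h11 (not_lt.2 h14)

end evl

theorem coef {F L : Type} [Field F] [Field L] [Algebra F L] {d : ℕ} (t : Fin d → L) (a : L)
    (P : Polynomial (MvPolynomial (Fin d) F)) (j : ℕ) :
    (taylor a (P.map (MvPolynomial.aeval (R := F) t : MvPolynomial (Fin d) F →+* L))).coeff j =
      ev t a (hasseDeriv j P) := by
  rw [taylor_coeff, ev, ← eval_map]
  congr 1
  ext n
  simp [hasseDeriv_coeff, coeff_map]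

theorem close {F : Type} [Field F] {d : ℕ} (x : Fin d → LaurentSeries F) (θ : LaurentSeries F)
    (D0 D1 Di : Polynomial (MvPolynomial (Fin d) F)) (h0 : ev x θ D0 = 0) (h1 : ev x θ D1 ≠ 0)
    (i : ℕ) (hi : 2 ≤ i) :
    ∃ n : ℕ, ∀ m : ℕ, n ≤ m → ∀ (x' : Fin d → AddMonoidAlgebra F ℤ) (θ' : AddMonoidAlgebra F ℤ),
      (∀ j, O F m (x j - emb F (x' j))) → O F m (θ - emb F θ') →
      ∃ e : ℤ, (ev x' θ' D1 ^ i).coeff e ≠ 0 ∧ (∀ l, (ev x' θ' D1 ^ i).coeff l ≠ 0 → e ≤ l) ∧
        ∀ l, (ev x' θ' D0 ^ (i - 1) * ev x' θ' Di).coeff l ≠ 0 → e + 1 ≤ l := by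
  obtain ⟨b, hb⟩ := ((ct_ev (x := x) (θ := θ) D0).pow (i - 1)).mul (ct_ev Di)
  obtain ⟨c, hc⟩ := (ct_ev (x := x) (θ := θ) D1).pow i
  set κ : LaurentSeries F := ev x θ D1 ^ i with hκ
  have hκ0 : κ ≠ 0 := pow_ne_zero _ h1
  refine ⟨(κ.order + 1 + b + c).toNat, fun m hm x' θ' hx hθ => ?_⟩
  have h3 := hb m (fun j => emb F (x' j)) (emb F θ') hx hθ
  have h4 := hc m (fun j => emb F (x' j)) (emb F θ') hx hθ
  simp only at h3 h4
  rw [h0, zero_pow (by omega), zero_mul, zero_sub] at h3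
  have e3 : ev (fun j => emb F (x' j)) (emb F θ') D0 ^ (i - 1) *
      ev (fun j => emb F (x' j)) (emb F θ') Di =
      emb F (ev x' θ' D0 ^ (i - 1) * ev x' θ' Di) := by
    rw [map_mul, map_pow, ev_map, ev_map]
  have e4 : ev (fun j => emb F (x' j)) (emb F θ') D1 ^ i = emb F (ev x' θ' D1 ^ i) := by
    rw [map_pow, ev_map]
  rw [e3, O_iff] at h3
  rw [e4, ← hκ, O_iff] at h4
  have h5 : ∀ l : ℤ, l ≤ κ.order → (ev x' θ' D0 ^ (i - 1) * ev x' θ' Di).coeff l = 0 := by
    intro l hl
    have h6 := h3 l (by omega)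
    rw [HahnSeries.coeff_neg, emb_coeff, neg_eq_zero] at h6
    exact h6
  have h6 : ∀ l : ℤ, l ≤ κ.order → (ev x' θ' D1 ^ i).coeff l = κ.coeff l := by
    intro l hl
    have h6 := h4 l (by omega)
    rw [HahnSeries.coeff_sub, emb_coeff, sub_eq_zero] at h6
    exact h6.symm
  refine ⟨κ.order, ?_, ?_, ?_⟩
  · rw [h6 _ le_rfl]
    exact fun h => hκ0 (HahnSeries.coeff_order_eq_zero.1 h)
  · intro l hl
    by_contra hcon
    push Not at hcon
    apply hl
    rw [h6 l hcon.le]
    exact HahnSeries.coeff_eq_zero_of_lt_order hcon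
  · intro l hl
    by_contra hcon
    exact hl (h5 l (by omega))

theorem main (F L : Type) [Field F] [CharZero F] [Field L] [Algebra F L]
  (v : AbsoluteValue L ℝ) (hv : ∀ x y, v (x + y) ≤ max (v x) (v y)) (hu : ∃ u : L, u ≠ 0 ∧ v u < 1)
  (d : ℕ) (x : Fin d → LaurentSeries F) (θ : LaurentSeries F)
    (P : Polynomial (MvPolynomial (Fin d) F))
  (h0 : eval₂ (MvPolynomial.aeval (R := F) x : MvPolynomial (Fin d) F →+* LaurentSeries F) θ P = 0)
  (h1 : eval₂ (MvPolynomial.aeval (R := F) x : MvPolynomial (Fin d) F →+* LaurentSeries F) θ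
    (derivative P) ≠ 0) :
  ∃ (t : Fin d → L) (a : L), ∀ i, 2 ≤ i →
    v ((taylor a (P.map (MvPolynomial.aeval (R := F) t : MvPolynomial (Fin d) F →+* L))).coeff 0)
      ^ (i - 1) *
    v ((taylor a (P.map (MvPolynomial.aeval (R := F) t : MvPolynomial (Fin d) F →+* L))).coeff i) <
    v ((taylor a (P.map (MvPolynomial.aeval (R := F) t : MvPolynomial (Fin d) F →+* L))).coeff 1)
      ^ i := by
  classical
  obtain ⟨u0, hu0, hu1⟩ := hu
  set u : Lˣ := Units.mk0 u0 hu0 with hudef
  have hu : v (u : L) < 1 := hu1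
  have hd0 : ev x θ (hasseDeriv 0 P) = 0 := by
    rw [hasseDeriv_zero]
    exact h0
  have hd1 : ev x θ (hasseDeriv 1 P) ≠ 0 := by
    rw [hasseDeriv_one]
    exact h1
  have h2 : ∀ i : ℕ, ∃ n : ℕ, 2 ≤ i → ∀ m : ℕ, n ≤ m → ∀ (x' : Fin d → AddMonoidAlgebra F ℤ)
      (θ' : AddMonoidAlgebra F ℤ),
      (∀ j, O F m (x j - emb F (x' j))) → O F m (θ - emb F θ') →
      ∃ e : ℤ, (ev x' θ' (hasseDeriv 1 P) ^ i).coeff e ≠ 0 ∧
        (∀ l, (ev x' θ' (hasseDeriv 1 P) ^ i).coeff l ≠ 0 → e ≤ l) ∧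
        ∀ l, (ev x' θ' (hasseDeriv 0 P) ^ (i - 1) * ev x' θ' (hasseDeriv i P)).coeff l ≠ 0 →
          e + 1 ≤ l := by
    intro i
    by_cases hi : 2 ≤ i
    · obtain ⟨n, hn⟩ := close x θ (hasseDeriv 0 P) (hasseDeriv 1 P) (hasseDeriv i P) hd0 hd1 i hi
      exact ⟨n, fun _ => hn⟩
    · exact ⟨0, fun h => absurd h hi⟩
  choose nn hnn using h2
  set N : ℕ := P.natDegree + 3 with hN
  set M : ℕ := (Finset.range N).sup nn with hM
  have hx : ∀ j, ∃ g : AddMonoidAlgebra F ℤ, O F M (x j - emb F g) := fun j => approx (x j) M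
  choose x' hx' using hx
  obtain ⟨θ', hθ'⟩ := approx θ (M : ℤ)
  have h3 : ∀ i : ℕ, ∃ K : ℕ, 2 ≤ i → i < N → ∀ k, K ≤ k →
      v (lev F (u ^ k) (ev x' θ' (hasseDeriv 0 P) ^ (i - 1) * ev x' θ' (hasseDeriv i P))) <
        v (lev F (u ^ k) (ev x' θ' (hasseDeriv 1 P) ^ i)) := by
    intro i
    by_cases hi : 2 ≤ i ∧ i < N
    · obtain ⟨K, hK⟩ := compare v hv hu _ _ (hnn i hi.1 M
        (Finset.le_sup (f := nn) (Finset.mem_range.2 hi.2)) x' θ' hx' hθ')
      exact ⟨K, fun _ _ => hK⟩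
    · exact ⟨0, fun ha hb => absurd ⟨ha, hb⟩ hi⟩
  choose KK hKK using h3
  set k : ℕ := (Finset.range N).sup KK with hk
  have h4 : ∀ i, 2 ≤ i → i < N →
      v (ev (fun j => lev F (u ^ k) (x' j)) (lev F (u ^ k) θ') (hasseDeriv 0 P)) ^ (i - 1) *
        v (ev (fun j => lev F (u ^ k) (x' j)) (lev F (u ^ k) θ') (hasseDeriv i P)) <
      v (ev (fun j => lev F (u ^ k) (x' j)) (lev F (u ^ k) θ') (hasseDeriv 1 P)) ^ i := by
    intro i hi hiN
    have h5 := hKK i hi hiN k (Finset.le_sup (f := KK) (Finset.mem_range.2 hiN))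
    rw [map_mul, map_pow, map_pow, ev_map, ev_map, ev_map, v.map_mul, v.map_pow, v.map_pow] at h5
    exact h5
  refine ⟨fun j => lev F (u ^ k) (x' j), lev F (u ^ k) θ', fun i hi => ?_⟩
  rw [coef, coef, coef]
  by_cases hiN : i < N
  · exact h4 i hi hiN
  · have h6 := h4 2 le_rfl (by omega)
    have h7 : v (ev (fun j => lev F (u ^ k) (x' j)) (lev F (u ^ k) θ') (hasseDeriv 1 P)) ≠ 0 := by
      intro h0
      rw [h0, zero_pow (by norm_num)] at h6
      exact absurd h6 (not_lt.2 (mul_nonneg (pow_nonneg (v.nonneg _) _) (v.nonneg _)))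
    have h8 : hasseDeriv i P = 0 := hasseDeriv_eq_zero_of_lt_natDegree P i (by omega)
    have h9 : ev (fun j => lev F (u ^ k) (x' j)) (lev F (u ^ k) θ')
        (0 : Polynomial (MvPolynomial (Fin d) F)) = 0 := by
      unfold ev
      exact eval₂_zero _ _
    rw [h8, h9, v.map_zero, mul_zero]
    exact pow_pos (lt_of_le_of_ne (v.nonneg _) (Ne.symm h7)) i

theorem t_NW1 : S_NW1 := fun F L _ _ _ _ v hv hu d x θ P h0 h1 => main F L v hv hu d x θ P h0 h1

end Pool.Agent.N890.LP.NW1
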