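import Pool.Agent.N890.LP.Stm0

/-!
Project LP (helper890), subtask 11536: Newton's method, an approximate root is near a root.
-/

set_option autoImplicit false

namespace Pool.Agent.N890.LP.NW2

open Polynomial Pool.Agent.N890.LP

theorem sum_lt {L : Type} [Field L] (w : AbsoluteValue L ℝ)
    (na : ∀ x y, w (x + y) ≤ max (w x) (w y)) {ι : Type} (s : Finset ι) (x : ι → L)
    (h : ∀ i ∈ s, w (x i) < 1) : w (∑ i ∈ s, x i) < 1 := by
  classical
  induction s using Finset.induction_on with
  | empty => simp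
  | insert a s ha ih =>
    rw [Finset.sum_insert ha]
    refine lt_of_le_of_lt (na _ _) (max_lt (h a (Finset.mem_insert_self _ _)) ?_)
    exact ih fun i hi => h i (Finset.mem_insert_of_mem hi)

theorem nat_le {L : Type} [Field L] (w : AbsoluteValue L ℝ)
    (na : ∀ x y, w (x + y) ≤ max (w x) (w y)) (n : ℕ) : w (n : L) ≤ 1 := by
  induction n with
  | zero => simp
  | succ n ih =>
    rw [Nat.cast_succ]
    refine le_trans (na _ _) (max_le ih ?_)
    rw [map_one]

theorem taylor_lt {L : Type} [Field L] (w : AbsoluteValue L ℝ)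
    (na : ∀ x y, w (x + y) ≤ max (w x) (w y)) (r : L) (hr : w r ≤ 1) (R : L[X])
    (hR : ∀ n, w (R.coeff n) < 1) (n : ℕ) : w ((taylor r R).coeff n) < 1 := by
  have h1 : taylor r R = ∑ i ∈ R.support, C (R.coeff i) * (X + C r) ^ i := by
    rw [taylor_apply, comp_eq_sum_left, Polynomial.sum_def]
  rw [h1, finsetSum_coeff]
  refine sum_lt w na _ _ fun i _ => ?_
  rw [coeff_C_mul, coeff_X_add_C_pow, map_mul, map_mul, map_pow]
  have h2 : w r ^ (i - n) * w ((i.choose n : ℕ) : L) ≤ 1 :=
    mul_le_one₀ (pow_le_one₀ (w.nonneg _) hr) (w.nonneg _) (nat_le w na _)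
  calc w (R.coeff i) * (w r ^ (i - n) * w ((i.choose n : ℕ) : L)) ≤ w (R.coeff i) * 1 :=
        mul_le_mul_of_nonneg_left h2 (w.nonneg _)
    _ < 1 := by rw [mul_one]; exact hR i

theorem t_NW2 : Pool.Agent.N890.KO.S_HENK → S_NW2 := by
  intro hen L B _ _ _ _ _ v p π hg f a hf
  have hinj : Function.Injective (algebraMap L B) := (algebraMap L B).injective
  obtain ⟨w, hw⟩ : ∃ w : AbsoluteValue L ℝ, ∀ x, w x = v (algebraMap L B x) :=
    ⟨v.comp hinj, fun x => rfl⟩
  have na : ∀ x y, w (x + y) ≤ max (w x) (w y) := by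
    intro x y
    rw [hw, hw, hw, map_add]
    exact hg.na _ _
  simp only [← hw] at hf
  by_cases h0 : (taylor a f).coeff 0 = 0
  · refine ⟨a, ?_⟩
    rwa [taylor_coeff_zero] at h0
  have h1 : (taylor a f).coeff 1 ≠ 0 := by
    intro h1
    have h2 := hf 2 le_rfl
    rw [h1, map_zero, zero_pow two_ne_zero] at h2
    exact absurd h2 (not_lt.2 (mul_nonneg (pow_nonneg (w.nonneg _) _) (w.nonneg _)))
  set F : L[X] := taylor a f with hF
  set t : L := F.coeff 0 / F.coeff 1 with ht
  set G : L[X] := C (F.coeff 0)⁻¹ * F.comp (C t * X) with hG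
  have hGc : ∀ n, G.coeff n = (F.coeff 0)⁻¹ * (F.coeff n * t ^ n) := by
    intro n
    rw [hG, coeff_C_mul, comp_C_mul_X_coeff]
  have hG0 : G.coeff 0 = 1 := by
    rw [hGc, pow_zero, mul_one, inv_mul_cancel₀ h0]
  have hG1 : G.coeff 1 = 1 := by
    rw [hGc, pow_one, ht, mul_div_cancel₀ _ h1, inv_mul_cancel₀ h0]
  have hG2 : ∀ i, 2 ≤ i → w (G.coeff i) < 1 := by
    intro i hi
    have h3 := hf i hi
    have hw0 : 0 < w (F.coeff 0) := w.pos h0
    have hw1 : 0 < w (F.coeff 1) := w.pos h1
    have e : w (G.coeff i) = w (F.coeff 0) ^ (i - 1) * w (F.coeff i) / w (F.coeff 1) ^ i := by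
      rw [hGc, map_mul, map_mul, map_pow, ht, map_div₀, map_inv₀, div_pow]
      obtain ⟨j, rfl⟩ : ∃ j, i = j + 1 := ⟨i - 1, by omega⟩
      rw [Nat.add_sub_cancel, pow_succ (w (F.coeff 0))]
      field_simp
    rw [e, div_lt_one (pow_pos hw1 _)]
    exact h3
  set R : L[X] := G - 1 - X with hR
  have hRc : ∀ n, w (R.coeff n) < 1 := by
    intro n
    match n with
    | 0 => rw [hR, coeff_sub, coeff_sub, hG0]; simp
    | 1 => rw [hR, coeff_sub, coeff_sub, hG1]; simp [coeff_one]
    | n + 2 =>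
      have e : R.coeff (n + 2) = G.coeff (n + 2) := by
        rw [hR, coeff_sub, coeff_sub, coeff_one, coeff_X]
        simp
      rw [e]
      exact hG2 _ (by omega)
  have hm1 : w (-1) ≤ 1 := by rw [AbsoluteValue.map_neg, map_one]
  have hT := taylor_lt w na (-1) hm1 R hRc
  have hGR : taylor (-1) G = X + taylor (-1) R := by
    have e : G = 1 + X + R := by rw [hR]; ring
    have e1 : taylor (-1 : L) (1 + X) = X := by
      rw [map_add, taylor_one, taylor_X]
      simp
    calc taylor (-1) G = taylor (-1) (1 + X + R) := by rw [← e]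
      _ = X + taylor (-1) R := by rw [map_add, e1]
  obtain ⟨W, -, hW⟩ := hen L B v p π hg (taylor (-1) G) (by
      intro n
      rw [← hw, hGR, coeff_add, coeff_X]
      refine le_trans (na _ _) (max_le ?_ (hT n).le)
      split_ifs <;> simp) (by
      rw [← hw, hGR, coeff_add, coeff_X_zero, zero_add]
      exact hT 0) (by
      rw [← hw, hGR, coeff_add, coeff_X_one]
      refine le_antisymm (le_trans (na _ _) (max_le (by rw [map_one]) (hT 1).le)) ?_
      by_contra hlt
      rw [not_le] at hlt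
      have h5 : w ((1 + (taylor (-1) R).coeff 1) + (-(taylor (-1) R).coeff 1)) ≤ _ := na _ _
      rw [AbsoluteValue.map_neg, add_neg_cancel_right, map_one] at h5
      exact absurd (lt_of_le_of_lt h5 (max_lt hlt (hT 1))) (lt_irrefl _))
  rw [taylor_eval, hG, eval_mul, eval_C, eval_comp, eval_mul, eval_C, eval_X, hF,
    taylor_eval] at hW
  exact ⟨_, (mul_eq_zero.1 hW).resolve_left (inv_ne_zero h0)⟩

end Pool.Agent.N890.LP.NW2
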