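import Pool.Agent.N890.LP.Stm0

set_option autoImplicit false

/-!
Project LP (helper890), leaf PRM (helper736): generators of a finitely generated field.
-/

namespace Pool.Agent.N890.LP.PRM

open Polynomial Pool.Agent.N890.LP

theorem core (F E : Type) [Field F] [CharZero F] [Field E] [Algebra F E]
    [Algebra.EssFiniteType F E] :
    ∃ (d : ℕ) (x : Fin d → E) (θ : E) (P : Polynomial (MvPolynomial (Fin d) F)),
    eval₂ (MvPolynomial.aeval (R := F) x : MvPolynomial (Fin d) F →+* E) θ P = 0 ∧
    eval₂ (MvPolynomial.aeval (R := F) x : MvPolynomial (Fin d) F →+* E) θ (derivative P) ≠ 0 ∧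
    ∀ (L : Type) [Field L] [Algebra F L] (t : Fin d → L) (ϑ : L), AlgebraicIndependent F t →
      eval₂ (MvPolynomial.aeval (R := F) t : MvPolynomial (Fin d) F →+* L) ϑ P = 0 →
      Nonempty (E →ₐ[F] L) := by
  obtain ⟨s, hs, hsep⟩ := exists_isTranscendenceBasis_and_isSeparable_of_perfectField F E
  obtain ⟨x, hx⟩ : ∃ x : Fin s.card → E, x = fun i => ((s.equivFin.symm i : s) : E) := ⟨_, rfl⟩
  have hxa : AlgebraicIndependent F x := by
    rw [hx]
    exact hs.1.comp _ s.equivFin.symm.injective
  have hrange : Set.range x = (s : Set E) := by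
    rw [hx]
    ext y
    constructor
    · rintro ⟨i, rfl⟩
      exact (s.equivFin.symm i).2
    · intro hy
      exact ⟨s.equivFin ⟨y, hy⟩, by simp⟩
  rw [← hrange] at hsep
  have hfin : Module.Finite (IntermediateField.adjoin F (Set.range x)) E := by
    have h1 : Algebra.FormallyUnramified (IntermediateField.adjoin F (Set.range x)) E :=
      Algebra.FormallyUnramified.of_isSeparable _ _
    have h2 : Algebra.EssFiniteType (IntermediateField.adjoin F (Set.range x)) E :=
      Algebra.EssFiniteType.of_comp F _ _
    exact Algebra.FormallyUnramified.finite_of_free _ _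
  let pb := Field.powerBasisOfFiniteOfSeparable (IntermediateField.adjoin F (Set.range x)) E
  let g := minpoly (IntermediateField.adjoin F (Set.range x)) pb.gen
  let R := MvPolynomial (Fin s.card) F
  let Q := FractionRing R
  let e : Q ≃ₐ[F] IntermediateField.adjoin F (Set.range x) := hxa.aevalEquivField
  let P : Polynomial R := IsLocalization.integerNormalization (nonZeroDivisors R)
    (g.map (e.symm : IntermediateField.adjoin F (Set.range x) →+* Q))
  obtain ⟨c, hc, hP⟩ := IsLocalization.integerNormalization_spec (nonZeroDivisors R)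
    (g.map (e.symm : IntermediateField.adjoin F (Set.range x) →+* Q))
  have hc0 : c ≠ 0 := nonZeroDivisors.ne_zero hc
  -- for a homomorphism from the field `K₀`
  have key : ∀ (L : Type) [Field L] (φ : IntermediateField.adjoin F (Set.range x) →+* L) (y : L)
      (h : Polynomial R) (k : Polynomial (IntermediateField.adjoin F (Set.range x))),
      h.map (algebraMap R Q) =
        c • (k.map (e.symm : IntermediateField.adjoin F (Set.range x) →+* Q)) →
      eval₂ ((φ.comp (e : Q →+* IntermediateField.adjoin F (Set.range x))).comp
        (algebraMap R Q)) y h = φ (e (algebraMap R Q c)) * eval₂ φ y k := by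
    intro L _ φ y h k hk
    rw [← eval₂_map, hk, Algebra.smul_def, Polynomial.algebraMap_apply, eval₂_mul, eval₂_C,
      eval₂_map]
    congr 1
    · congr 1
      ext z
      simp
  have hval : ((algebraMap (IntermediateField.adjoin F (Set.range x)) E).comp
      (e : Q →+* IntermediateField.adjoin F (Set.range x))).comp (algebraMap R Q) =
      (MvPolynomial.aeval (R := F) x : R →+* E) := by
    refine RingHom.ext fun p => ?_
    exact hxa.aevalEquivField_algebraMap_apply_coe p
  have hg0 : eval₂ (algebraMap (IntermediateField.adjoin F (Set.range x)) E) pb.gen g = 0 :=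
    minpoly.aeval _ _
  have hg1 : eval₂ (algebraMap (IntermediateField.adjoin F (Set.range x)) E) pb.gen
      (derivative g) ≠ 0 :=
    Separable.aeval_derivative_ne_zero (Algebra.IsSeparable.isSeparable _ _) hg0
  refine ⟨s.card, x, pb.gen, P, ?_, ?_, ?_⟩
  · rw [← hval, key E _ pb.gen P g hP, hg0, mul_zero]
  · have hPd : (derivative P).map (algebraMap R Q) =
        c • ((derivative g).map (e.symm : IntermediateField.adjoin F (Set.range x) →+* Q)) := by
      rw [← derivative_map, hP, derivative_smul, derivative_map]
    rw [← hval, key E _ pb.gen _ (derivative g) hPd]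
    refine mul_ne_zero ?_ hg1
    rw [_root_.map_ne_zero, _root_.map_ne_zero]
    intro h
    exact hc0 ((IsFractionRing.injective R Q) (by rw [h, map_zero]))
  · intro L _ _ t ϑ ht hϑ
    have hinj : Function.Injective (MvPolynomial.aeval (R := F) t : R →ₐ[F] L) :=
      algebraicIndependent_iff_injective_aeval.2 ht
    let φQ : Q →ₐ[F] L := IsFractionRing.liftAlgHom (K := Q) hinj
    let φ : IntermediateField.adjoin F (Set.range x) →ₐ[F] L := φQ.comp (e.symm : _ →ₐ[F] Q)
    have hval2 : ((φ : IntermediateField.adjoin F (Set.range x) →+* L).comp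
        (e : Q →+* IntermediateField.adjoin F (Set.range x))).comp (algebraMap R Q) =
        (MvPolynomial.aeval (R := F) t : R →+* L) := by
      refine RingHom.ext fun p => ?_
      show φQ (e.symm (e (algebraMap R Q p))) = MvPolynomial.aeval (R := F) t p
      rw [AlgEquiv.symm_apply_apply]
      exact IsFractionRing.lift_algebraMap hinj p
    rw [← hval2, key L _ ϑ P g hP] at hϑ
    have hne : (φ : IntermediateField.adjoin F (Set.range x) →+* L) (e (algebraMap R Q c)) ≠ 0 := by
      rw [_root_.map_ne_zero, _root_.map_ne_zero]
      intro h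
      exact hc0 ((IsFractionRing.injective R Q) (by rw [h, map_zero]))
    have hg2 := (mul_eq_zero.1 hϑ).resolve_left hne
    let _ : Algebra (IntermediateField.adjoin F (Set.range x)) L :=
      (φ : IntermediateField.adjoin F (Set.range x) →+* L).toAlgebra
    have : IsScalarTower F (IntermediateField.adjoin F (Set.range x)) L :=
      IsScalarTower.of_algebraMap_eq fun r => (φ.commutes r).symm
    exact ⟨(pb.lift ϑ hg2).restrictScalars F⟩

theorem t_PRM : S_PRM := by
  intro F K₁ _ _ _ _ S
  have : Algebra.EssFiniteType F (IntermediateField.adjoin F (S : Set K₁)) :=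
    IntermediateField.essFiniteType_iff.2 ⟨S, rfl⟩
  obtain ⟨d, x, θ, P, h1, h2, h3⟩ := core F (IntermediateField.adjoin F (S : Set K₁))
  have e : ∀ p : Polynomial (MvPolynomial (Fin d) F),
      eval₂ (MvPolynomial.aeval (R := F) (fun i => (x i : K₁)) : MvPolynomial (Fin d) F →+* K₁)
        (θ : K₁) p =
      ((eval₂ (MvPolynomial.aeval (R := F) x :
        MvPolynomial (Fin d) F →+* IntermediateField.adjoin F (S : Set K₁)) θ p :
        IntermediateField.adjoin F (S : Set K₁)) : K₁) := by
    intro p
    have h := Polynomial.hom_eval₂ p (MvPolynomial.aeval (R := F) x :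
        MvPolynomial (Fin d) F →+* IntermediateField.adjoin F (S : Set K₁))
        (algebraMap (IntermediateField.adjoin F (S : Set K₁)) K₁) θ
    have h' : (algebraMap (IntermediateField.adjoin F (S : Set K₁)) K₁).comp
        (MvPolynomial.aeval (R := F) x :
          MvPolynomial (Fin d) F →+* IntermediateField.adjoin F (S : Set K₁)) =
        (MvPolynomial.aeval (R := F) (fun i => (x i : K₁)) : MvPolynomial (Fin d) F →+* K₁) := by
      ext z
      · simp
      · simp
    rw [h'] at h
    exact h.symm
  refine ⟨d, fun i => (x i : K₁), (θ : K₁), P, ?_, ?_, h3⟩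
  · rw [e, h1]; rfl
  · rw [e]
    intro h
    exact h2 (Subtype.ext h)

end Pool.Agent.N890.LP.PRM
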