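import Pool.Agent.N890.LP.Stm0

/-!
# Puiseux series with finitely many conjugates (part PUI of project LP, helper890; proof by helper61)
-/

set_option autoImplicit false

namespace Pool.Agent.N890.LP.PUI

open Pool.Agent.N890.LP Pool.Agent.Helper165.P1

variable {F : Type} [Field F]

theorem pact_coeff (σ : AlgebraicClosure F ≃ₐ[F] AlgebraicClosure F) (y : PP F) (q : ℚ) :
    ((pact σ y : PP F) : HQ (AlgebraicClosure F)).coeff q =
      σ ((y : HQ (AlgebraicClosure F)).coeff q) := by
  unfold pact
  rw [twP_coeff, AddChar.one_apply, one_mul]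
  rfl

theorem pp_ext {x y : PP F} (h : ∀ q, (x : HQ (AlgebraicClosure F)).coeff q =
    (y : HQ (AlgebraicClosure F)).coeff q) : x = y :=
  Subtype.ext (HahnSeries.ext (funext h))

/-- a finite set of exponents which separates `y` from its other conjugates -/
theorem exists_exponents {y : PP F}
    (hy : (Set.range fun σ : AlgebraicClosure F ≃ₐ[F] AlgebraicClosure F => pact σ y).Finite) :
    ∃ Q : Finset ℚ, ∀ σ : AlgebraicClosure F ≃ₐ[F] AlgebraicClosure F,
      (∀ q ∈ Q, σ ((y : HQ (AlgebraicClosure F)).coeff q) =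
        (y : HQ (AlgebraicClosure F)).coeff q) → pact σ y = y := by
  classical
  have h1 : ∀ z : PP F, ∃ q : ℚ, z ≠ y → (z : HQ (AlgebraicClosure F)).coeff q ≠
      (y : HQ (AlgebraicClosure F)).coeff q := by
    intro z
    by_cases hz : z = y
    · exact ⟨0, fun h => absurd hz h⟩
    · by_contra hc
      push Not at hc
      apply hz
      exact pp_ext fun q => (hc q).2
  choose qf hqf using h1
  refine ⟨hy.toFinset.image qf, fun σ hσ => ?_⟩
  by_contra hne
  refine hqf (pact σ y) hne ?_
  rw [pact_coeff]
  apply hσ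
  exact Finset.mem_image_of_mem _ (hy.mem_toFinset.2 ⟨σ, rfl⟩)

variable [CharZero F]

/-- the coefficients belong to a finite extension -/
theorem exists_field {y : PP F}
    (hy : (Set.range fun σ : AlgebraicClosure F ≃ₐ[F] AlgebraicClosure F => pact σ y).Finite) :
    ∃ M : IntermediateField F (AlgebraicClosure F), FiniteDimensional F M ∧
      ∀ q, (y : HQ (AlgebraicClosure F)).coeff q ∈ M := by
  classical
  obtain ⟨Q, hQ⟩ := exists_exponents hy
  refine ⟨IntermediateField.adjoin F
    ((Q.image fun q => (y : HQ (AlgebraicClosure F)).coeff q : Finset _) : Set (AlgebraicClosure F)),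
    ?_, ?_⟩
  · apply IntermediateField.finiteDimensional_adjoin
    intro x _
    exact (Algebra.IsAlgebraic.isAlgebraic x).isIntegral
  · intro q
    set M := IntermediateField.adjoin F
      ((Q.image fun q => (y : HQ (AlgebraicClosure F)).coeff q : Finset _) :
        Set (AlgebraicClosure F)) with hM
    rw [← InfiniteGalois.fixedField_fixingSubgroup M, IntermediateField.mem_fixedField_iff]
    intro σ hσ
    have h1 : pact σ y = y := by
      apply hQ
      intro q' hq'
      rw [IntermediateField.mem_fixingSubgroup_iff] at hσ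
      apply hσ
      apply IntermediateField.subset_adjoin
      rw [Finset.mem_coe]
      exact Finset.mem_image_of_mem _ hq'
    rw [← pact_coeff, h1]

theorem t_PUI : S_PUI := by
  intro F _ _ y hy
  classical
  obtain ⟨M, hMf, hM⟩ := exists_field hy
  obtain ⟨m, hm, y', hy'⟩ := y.2
  obtain ⟨n, hn⟩ : ∃ n, n = Module.finrank F M := ⟨_, rfl⟩
  let b : Module.Basis (Fin n) F M := (Module.finBasis F M).reindex (finCongr hn.symm)
  have hM' : ∀ i : ℤ, y'.coeff i ∈ M := by
    intro i
    rw [← eHom_coeff m hm y' i, hy']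
    exact hM _
  let r' : Fin n → NP.LS (AlgebraicClosure F) := fun j =>
    { coeff := fun i => algebraMap F (AlgebraicClosure F) (b.repr ⟨y'.coeff i, hM' i⟩ j)
      isPWO_support' := y'.isPWO_support.mono (by
        intro i hi hx
        apply hi
        have h1 : (⟨y'.coeff i, hM' i⟩ : M) = 0 := Subtype.ext hx
        simp only [h1, map_zero, Finsupp.coe_zero, Pi.zero_apply]) }
  have hr' : ∀ j i, (r' j).coeff i =
      algebraMap F (AlgebraicClosure F) (b.repr ⟨y'.coeff i, hM' i⟩ j) := fun _ _ => rfl
  have hsum : y' = ∑ j, r' j * HahnSeries.C (b j : AlgebraicClosure F) := by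
    ext i
    rw [HahnSeries.coeff_sum]
    have h1 : ∀ j, (r' j * HahnSeries.C (b j : AlgebraicClosure F)).coeff i =
        (r' j).coeff i * (b j : AlgebraicClosure F) := by
      intro j
      rw [mul_comm, HahnSeries.C_mul_eq_smul, HahnSeries.coeff_smul, smul_eq_mul, mul_comm]
    simp only [h1, hr']
    have h2 := b.sum_repr ⟨y'.coeff i, hM' i⟩
    have h3 : M.val (∑ j, (b.repr ⟨y'.coeff i, hM' i⟩) j • b j) = y'.coeff i :=
      congrArg (fun z : M => (z : AlgebraicClosure F)) h2
    refine h3.symm.trans ?_
    rw [map_sum]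
    refine Finset.sum_congr rfl fun j _ => ?_
    rw [Algebra.smul_def, map_mul, AlgHom.commutes]
    rfl
  refine ⟨n, fun j => eP m hm (r' j), fun j => (b j : AlgebraicClosure F), ?_, ?_⟩
  · intro j σ
    apply pp_ext
    intro q
    rw [pact_coeff]
    change σ ((eHom m hm (r' j)).coeff q) = (eHom m hm (r' j)).coeff q
    by_cases h : ∃ i : ℤ, (i : ℚ) / m = q
    · obtain ⟨i, rfl⟩ := h
      rw [eHom_coeff, hr', AlgEquiv.commutes]
    · push Not at h
      rw [eHom_coeff_of_ne m hm _ q h, map_zero]
  · have h1 : y = eP m hm y' := Subtype.ext hy'.symm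
    rw [h1]
    conv_lhs => rw [hsum]
    rw [map_sum]
    refine Finset.sum_congr rfl fun j _ => ?_
    rw [map_mul]
    congr 1
    apply pp_ext
    intro q
    change (eHom m hm (HahnSeries.single 0 (b j : AlgebraicClosure F))).coeff q =
      (HahnSeries.single 0 (b j : AlgebraicClosure F)).coeff q
    rw [eHom_single]
    simp

end Pool.Agent.N890.LP.PUI
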