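import Pool.Agent.N890.LP.Stm0

/-! LP/RAT: the fields of rational functions embed in `F((T))`. -/

set_option autoImplicit false

namespace Pool.Agent.N890.LP.RAT

open Pool.Agent.N890.LP

theorem t_RAT (h : S_ALI) : S_RAT := by
  intro F _ _ l
  obtain ⟨t, _, ht⟩ := h F l (fun _ => 0)
  have hinj : Function.Injective (MvPolynomial.aeval (R := F)
      (fun i => (HahnSeries.ofPowerSeries ℤ F (t i) : LaurentSeries F))) := ht
  exact ⟨IsFractionRing.liftAlgHom (K := FractionRing (MvPolynomial (Fin l) F))
    (L := LaurentSeries F) hinj⟩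

end Pool.Agent.N890.LP.RAT
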