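import Pool.Agent.N890.LP.SecL
import Pool.Agent.N890.KO.All
import Pool.Agent.N890.FG.All
import Pool.Agent.N890.LP.PUI
import Pool.Agent.N890.LP.PRM
import Pool.Agent.N890.LP.NW1
import Pool.Agent.N890.LP.NW2
import Pool.Agent.N890.LP.DNS
import Pool.Agent.N890.LP.EMB
import Pool.Agent.N890.LP.EMP
import Pool.Agent.N890.LP.EQV
import Pool.Agent.N890.LP.LAU
import Pool.Agent.N890.LP.ALI
import Pool.Agent.N890.LP.RAT
import Pool.Agent.N890.LP.EXI

/-! Project LP (helper890): the splitting over `F` of the Galois groups of the subfields of `F((T))`. -/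

set_option autoImplicit false

namespace Pool.Agent.N890.LP

theorem s_PUI : S_PUI := PUI.t_PUI
theorem s_PRM : S_PRM := PRM.t_PRM
theorem s_NW1 : S_NW1 := NW1.t_NW1
theorem s_NW2 : S_NW2 := NW2.t_NW2 KO.s_HENK
theorem s_DNS : S_DNS := DNS.t_DNS
theorem s_EMB : S_EMB := EMB.t_EMB s_PRM s_NW1 s_NW2 s_DNS KO.s_LOC FG.LOF.t_LOF
theorem s_EMP : S_EMP := EMP.t_EMP s_EMB
theorem s_EQV : S_EQV := EQV.t_EQV s_PUI s_EMP
theorem s_LAU : S_LAU := LAU.t_LAU s_EQV FG.CHG.t_CHG FG.s_TOR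
theorem s_ALI : S_ALI := ALI.t_ALI s_DNS
theorem s_RAT : S_RAT := RAT.t_RAT s_ALI
theorem s_EXI : S_EXI := EXI.t_EXI s_PRM s_ALI

end Pool.Agent.N890.LP
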