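import Pool.Agent.N890.LP.All

/-! Project LP (helper890): sections over finitely generated subfields of `F((T))` give Selmer
classes over number fields. -/

set_option autoImplicit false

namespace Pool.Agent.N890.LP

open NumberField WeierstrassCurve IsDedekindDomain Pool.Agent.TH942 Pool.Agent.TH954
open Pool.Agent.W620.SC Pool.Agent.N89.CI Pool.Agent.N890.FD Pool.Agent.N890.US

/-- generators of the field generated by a finite set -/
lemma adjoin_coe_eq_top {F E : Type} [Field F] [Field E] [Algebra F E] (S : Set E) :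
    IntermediateField.adjoin F
      ((fun x : IntermediateField.adjoin F S => (x : E)) ⁻¹' S) = ⊤ := by
  apply IntermediateField.lift_injective
  rw [IntermediateField.lift_top, IntermediateField.lift_adjoin, Set.image_preimage_eq_of_subset]
  rintro x hx
  exact ⟨⟨x, IntermediateField.subset_adjoin F S hx⟩, rfl⟩

/-- the field generated over `F` by the image of `k` -/
lemma exists_comp {K F k E : Type} [Field K] [Field F] [Algebra K F] [Field k] [Algebra K k]
    [Field E] [Algebra F E] (hfg : (⊤ : IntermediateField K k).FG) (ψ : k →+* E)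
    (hψ : ∀ x : K, ψ (algebraMap K k x) = algebraMap F E (algebraMap K F x)) :
    ∃ (k' : IntermediateField F E) (S : Finset k'),
      IntermediateField.adjoin F (S : Set k') = ⊤ ∧ ∀ x, ψ x ∈ k' := by
  classical
  obtain ⟨T, hT⟩ := hfg
  have hfin : ((fun x : IntermediateField.adjoin F (ψ '' (T : Set k)) => (x : E)) ⁻¹'
      (ψ '' (T : Set k))).Finite :=
    Set.Finite.preimage Subtype.val_injective.injOn (T.finite_toSet.image _)
  refine ⟨IntermediateField.adjoin F (ψ '' (T : Set k)), hfin.toFinset, ?_, ?_⟩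
  · rw [Set.Finite.coe_toFinset]
    exact adjoin_coe_eq_top _
  · intro x
    have hx : x ∈ IntermediateField.adjoin K (T : Set k) := by rw [hT]; trivial
    induction hx using IntermediateField.adjoin_induction with
    | mem x hx => exact IntermediateField.subset_adjoin F _ ⟨x, hx, rfl⟩
    | algebraMap x => rw [hψ]; exact IntermediateField.algebraMap_mem _ _
    | add x y _ _ h1 h2 => rw [map_add]; exact add_mem h1 h2
    | inv x _ h1 => rw [map_inv₀]; exact inv_mem h1
    | mul x y _ _ h1 h2 => rw [map_mul]; exact mul_mem h1 h2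

open scoped Classical in
/-- the class over a number field `F` of a section over a finitely generated subfield `k` of
`F((T))`, given by places over the completions -/
theorem mainS {K F k : Type} [Field K] [NumberField K] [Field F]
    [NumberField F] [Algebra K F] [Field k] [Algebra K k]
    (hfg : (⊤ : IntermediateField K k).FG) (ψ : k →+* LaurentSeries F)
    (hψ : ∀ x : K, ψ (algebraMap K k x) = algebraMap F (LaurentSeries F) (algebraMap K F x))
    {r m : ℕ} {ι L' : Type} [Fintype ι] (a b : Fin r → ℤ)
    (hdisc : ∀ i, 4 * a i ^ 3 + 27 * b i ^ 2 ≠ 0) (G' : L' → Pol (𝓞 K) r m ι)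
    (d : L' → Fin r → ℕ) (e : L' → ℕ) (hG' : ∀ l, MHomog (G' l) (d l) (e l)) (N : ℕ) (hN : 1 ≤ N)
    (t : ι → 𝓞 K) {L Ω M B : Type} [Field L] [Field Ω] [Field M]
    [Field B] [Algebra k L] [Algebra L Ω] [Algebra k Ω] [IsScalarTower k L Ω] [Algebra L M]
    [Algebra k M] [IsScalarTower k L M] [Algebra k B] [IsAlgClosure L Ω] [IsAlgClosure k B]
    (emb : M →ₐ[L] Ω) (P : ∀ i, ((sw (a i : k) (b i : k)).baseChange L).toAffine.Point)
    (hP : PtOver ((algebraMap K k).comp (algebraMap (𝓞 K) K)) (a := a) (b := b) G'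
      (fun s => algebraMap K k (algebraMap (𝓞 K) K (t s))) L P)
    (s : GalSection k L M B)
    (hdiv : (∀ i, ∃ Q : ((sw (a i : k) (b i : k)).baseChange M).toAffine.Point,
      N • Q = pm (sw (a i : k) (b i : k)) (IsScalarTower.toAlgHom k L M) (P i)) ∨
      ∃ U : Set (ValuationSubring L), (∀ O ∈ U, ∀ x : k, algebraMap k L x ∈ O) ∧
        unramified L Ω U ≤ emb.fieldRange)
    (hp : ∀ (w : HeightOneSpectrum (𝓞 F)) [Algebra k (w.adicCompletion F)],
      (∀ x : K, algebraMap k (w.adicCompletion F) (algebraMap K k x) =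
        algebraMap F (w.adicCompletion F) (algebraMap K F x)) →
      ∃ p : Plc k M (AlgebraicClosure (w.adicCompletion F)),
        s.GivenBy (w.adicCompletion F) p) :
    ∃ η, IsSel ((algebraMap K F).comp (algebraMap (𝓞 K) K)) a b G'
      (fun s => algebraMap K F (algebraMap (𝓞 K) K (t s))) N η := by
  obtain ⟨k', S, hS, hk⟩ := exists_comp hfg ψ hψ
  let ψ' : k →+* k' := ψ.codRestrict k'.toSubfield hk
  have hψ' : ∀ x : K, ψ' (algebraMap K k x) = algebraMap F k' (algebraMap K F x) :=
    fun x => Subtype.ext (hψ x)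
  refine isSel_of_sectionL (F := F) FG.s_START ψ' hψ' a b hdisc G' d e hG' N hN
    (fun X => s_LAU F k' S hS k'.val r a b hdisc N hN X) t emb P hP s hdiv (fun w φ hφ => ?_)
  letI : Algebra k (w.adicCompletion F) := φ.toAlgebra
  exact hp w hφ

open scoped Classical in
/-- the class over a number field `F` of a birational section over a finitely generated subfield
`k` of `F((T))` -/
theorem main {K F k : Type} [Field K] [NumberField K] [Field F]
    [NumberField F] [Algebra K F] [Field k] [Algebra K k]
    (hfg : (⊤ : IntermediateField K k).FG) (ψ : k →+* LaurentSeries F)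
    (hψ : ∀ x : K, ψ (algebraMap K k x) = algebraMap F (LaurentSeries F) (algebraMap K F x))
    {r m : ℕ} {ι L' : Type} [Fintype ι] (a b : Fin r → ℤ)
    (hdisc : ∀ i, 4 * a i ^ 3 + 27 * b i ^ 2 ≠ 0) (G' : L' → Pol (𝓞 K) r m ι)
    (d : L' → Fin r → ℕ) (e : L' → ℕ) (hG' : ∀ l, MHomog (G' l) (d l) (e l)) (N : ℕ) (hN : 1 ≤ N)
    (t : ι → 𝓞 K) {L Ω B : Type} [Field L] [Field Ω]
    [Field B] [Algebra k L] [Algebra L Ω] [Algebra k Ω] [IsScalarTower k L Ω]
    [Algebra k B] [IsAlgClosure L Ω] [IsAlgClosure k B]
    (P : ∀ i, ((sw (a i : k) (b i : k)).baseChange L).toAffine.Point)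
    (hP : PtOver ((algebraMap K k).comp (algebraMap (𝓞 K) K)) (a := a) (b := b) G'
      (fun s => algebraMap K k (algebraMap (𝓞 K) K (t s))) L P)
    (s : GalSection k L Ω B) :
    ∃ η, IsSel ((algebraMap K F).comp (algebraMap (𝓞 K) K)) a b G'
      (fun s => algebraMap K F (algebraMap (𝓞 K) K (t s))) N η :=
  mainS hfg ψ hψ a b hdisc G' d e hG' N hN t (AlgHom.id L Ω) P hP s
    (Or.inr ⟨∅, fun _ h => absurd h (Set.notMem_empty _), by
      rw [show (AlgHom.id L Ω).fieldRange = ⊤ from
        AlgHom.fieldRange_eq_top.2 Function.surjective_id]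
      exact le_top⟩)
    (fun w _ _ => KO.koenigsmann F w k L Ω B s)

/-- every finitely generated field over `K` can be embedded in some `F((T))` -/
theorem exists_embedding (K k : Type) [Field K] [NumberField K] [Field k] [Algebra K k]
    (hfg : (⊤ : IntermediateField K k).FG) :
    ∃ (F : Type) (_ : Field F) (_ : NumberField F) (_ : Algebra K F) (ψ : k →+* LaurentSeries F),
      ∀ x : K, ψ (algebraMap K k x) = algebraMap F (LaurentSeries F) (algebraMap K F x) := by
  obtain ⟨T, hT⟩ := hfg
  exact s_EXI K k T hT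

theorem exists_rat (F : Type) [Field F] [NumberField F] (l : ℕ) :
    Nonempty (FractionRing (MvPolynomial (Fin l) F) →ₐ[F] LaurentSeries F) := by
  have : Countable F := (Module.finBasis ℚ F).equivFun.injective.countable
  exact s_RAT F l

end Pool.Agent.N890.LP
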