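import Pool.Agent.N890.LP.Stm
import Pool.Agent.N890.US.SecU
import Pool.Agent.N890.DU.Stm

/-! Project LP (helper890): sections over subfields of `F((T))` give Selmer classes over number
fields. -/

set_option autoImplicit false

namespace Pool.Agent.N890.LP

open NumberField WeierstrassCurve IsDedekindDomain Pool.Agent.TH942 Pool.Agent.TH954
open Pool.Agent.W620.SC Pool.Agent.N89.CI Pool.Agent.N890.FD Pool.Agent.N890.US Pool.Agent.N890.FG

open scoped Classical in
/-- the class over a number field `F` of a section over a subfield `k` of `k'`, if classes can be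
descended from `k'` to `F` -/
theorem isSel_of_sectionL (hSTART : S_START) {K F k k' : Type} [Field K]
    [NumberField K] [Field F]
    [NumberField F] [Algebra K F] [Field k] [Algebra K k] [Field k'] [Algebra F k']
    (ψ : k →+* k')
    (hψ : ∀ x : K, ψ (algebraMap K k x) = algebraMap F k' (algebraMap K F x))
    {r m : ℕ} {ι L' : Type} [Fintype ι] (a b : Fin r → ℤ)
    (hdisc : ∀ i, 4 * a i ^ 3 + 27 * b i ^ 2 ≠ 0) (G' : L' → Pol (𝓞 K) r m ι)
    (d : L' → Fin r → ℕ) (e : L' → ℕ) (hG' : ∀ l, MHomog (G' l) (d l) (e l)) (N : ℕ) (hN : 1 ≤ N)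
    (hNST : ∀ X : ∀ w : HeightOneSpectrum (𝓞 F), (Fin r → Fin 3 → w.adicCompletion F) → Prop,
      (∃ ξ, SelK (fun i => sw (a i : F) (b i : F)) N k'
        (fun w : HeightOneSpectrum (𝓞 F) => w.adicCompletion F) X ξ) →
      ∃ η, SelK (fun i => sw (a i : F) (b i : F)) N F
        (fun w : HeightOneSpectrum (𝓞 F) => w.adicCompletion F) X η)
    (t : ι → 𝓞 K) {L Ω M B : Type} [Field L] [Field Ω] [Field M]
    [Field B] [Algebra k L] [Algebra L Ω] [Algebra k Ω] [IsScalarTower k L Ω] [Algebra L M]
    [Algebra k M] [IsScalarTower k L M] [Algebra k B] [IsAlgClosure L Ω] [IsAlgClosure k B]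
    (emb : M →ₐ[L] Ω) (P : ∀ i, ((sw (a i : k) (b i : k)).baseChange L).toAffine.Point)
    (hP : PtOver ((algebraMap K k).comp (algebraMap (𝓞 K) K)) (a := a) (b := b) G'
      (fun s => algebraMap K k (algebraMap (𝓞 K) K (t s))) L P)
    (s : GalSection k L M B)
    (hdiv : (∀ i, ∃ Q : ((sw (a i : k) (b i : k)).baseChange M).toAffine.Point,
      N • Q = pm (sw (a i : k) (b i : k)) (IsScalarTower.toAlgHom k L M) (P i)) ∨
      ∃ U : Set (ValuationSubring L), (∀ O ∈ U, ∀ x : k, algebraMap k L x ∈ O) ∧
        unramified L Ω U ≤ emb.fieldRange)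
    (hp : ∀ (w : HeightOneSpectrum (𝓞 F)) (φ : k →+* w.adicCompletion F),
      (∀ x : K, φ (algebraMap K k x) = algebraMap F (w.adicCompletion F) (algebraMap K F x)) →
      letI : Algebra k (w.adicCompletion F) := φ.toAlgebra
      ∃ p : Plc k M (AlgebraicClosure (w.adicCompletion F)),
        s.GivenBy (w.adicCompletion F) p) :
    ∃ η, IsSel ((algebraMap K F).comp (algebraMap (𝓞 K) K)) a b G'
      (fun s => algebraMap K F (algebraMap (𝓞 K) K (t s))) N η := by
  have hck : CharZero k := charZero_of_injective_algebraMap (algebraMap K k).injective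
  have hD : ∀ i, 4 * (a i : k) ^ 3 + 27 * (b i : k) ^ 2 ≠ 0 := fun i => by
    exact_mod_cast hdisc i
  have hdiv' : ∀ i, ∃ Q : ((sw (a i : k) (b i : k)).baseChange M).toAffine.Point,
      N • Q = pm (sw (a i : k) (b i : k)) (IsScalarTower.toAlgHom k L M) (P i) := by
    rcases hdiv with h | ⟨U, hU, he⟩
    · exact h
    · intro i
      exact div_of_large (a i : k) (b i : k) (hD i) emb s U hU he (P i) hN
  obtain ⟨T, hT, h0⟩ := hP
  obtain ⟨ξ, h1, h2, h3⟩ := sel_of_section_K ((algebraMap K k).comp (algebraMap (𝓞 K) K)) a b hD G'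
    d e hG' (fun s => algebraMap K k (algebraMap (𝓞 K) K (t s))) emb P T hT h0 s N hN hdiv'
  letI : Algebra k k' := ψ.toAlgebra
  -- the local conditions
  let X : ∀ w : HeightOneSpectrum (𝓞 F), (Fin r → Fin 3 → w.adicCompletion F) → Prop :=
    fun w V => ∃ T : Fin (m + 1) → w.adicCompletion F, T ≠ 0 ∧
      ∀ l, valP ((algebraMap F (w.adicCompletion F)).comp
        ((algebraMap K F).comp (algebraMap (𝓞 K) K))) (G' l) V T
        (fun s => algebraMap F (w.adicCompletion F) (algebraMap K F (algebraMap (𝓞 K) K (t s)))) = 0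
  obtain ⟨η, h4, h5, h6⟩ := hNST X
    (hSTART F k k' r a b hdisc N ξ h1 h2 _ (fun w : HeightOneSpectrum (𝓞 F) => w.adicCompletion F) X
      (fun w Φ => by
        have hφ : ∀ x : K, ((Φ : k' →+* w.adicCompletion F).comp (algebraMap k k'))
            (algebraMap K k x) = algebraMap F (w.adicCompletion F) (algebraMap K F x) := by
          intro x
          change Φ (ψ (algebraMap K k x)) = _
          rw [hψ, Φ.commutes]
        letI : Algebra k (w.adicCompletion F) :=
          ((Φ : k' →+* w.adicCompletion F).comp (algebraMap k k')).toAlgebra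
        have : CharZero (w.adicCompletion F) :=
          charZero_of_injective_algebraMap (algebraMap F (w.adicCompletion F)).injective
        obtain ⟨p, hp'⟩ := hp w _ hφ
        obtain ⟨ι₀, P', Q', ⟨T', hT', h7⟩, h8, h9⟩ := h3 (w.adicCompletion F) p hp'
        refine ⟨ι₀, P', Q', ⟨T', hT', fun l => ?_⟩, h8, h9⟩
        have h10 := h7 l
        have e1 : (algebraMap k (w.adicCompletion F)).comp
            ((algebraMap K k).comp (algebraMap (𝓞 K) K)) =
            (algebraMap F (w.adicCompletion F)).comp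
              ((algebraMap K F).comp (algebraMap (𝓞 K) K)) :=
          RingHom.ext fun x => hφ _
        have e2 : (fun s => algebraMap k (w.adicCompletion F)
            (algebraMap K k (algebraMap (𝓞 K) K (t s)))) =
            fun s => algebraMap F (w.adicCompletion F)
              (algebraMap K F (algebraMap (𝓞 K) K (t s))) := by
          funext s
          exact hφ _
        rw [e1, e2] at h10
        exact h10))
  refine ⟨η, fun i => h4 i, h5, fun w => ?_⟩
  obtain ⟨ι₁, P₁, Q₁, -, h7, h8, h9⟩ := h6 w (Algebra.ofId F _)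
  exact ⟨ι₁, P₁, Q₁, h7, h8, h9⟩

end Pool.Agent.N890.LP
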