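import Pool.Agent.N890.LP.Stm0
import Pool.Agent.N890.FG.Stm

/-!
Project LP (helper890), pages MP_8312c9_nt and MP_e66f84_ag: Selmer classes over subfields of `F((T))`.
-/

set_option autoImplicit false

namespace Pool.Agent.N890.LP

open NumberField WeierstrassCurve IsDedekindDomain Pool.Agent.TH942 Pool.Agent.TH954
open Pool.Agent.N890.FG

open scoped Classical in
/-- LAU. From a finitely generated subfield `k'` of `F((T))` to `F`. -/
def S_LAU : Prop := ∀ (F k' : Type) [Field F] [NumberField F] [Field k'] [Algebra F k']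
  (S : Finset k'), IntermediateField.adjoin F (S : Set k') = ⊤ → (k' →ₐ[F] LaurentSeries F) →
  ∀ (r : ℕ) (a b : Fin r → ℤ), (∀ i, 4 * a i ^ 3 + 27 * b i ^ 2 ≠ 0) →
  ∀ N : ℕ, 1 ≤ N → ∀ (X : ∀ w : HeightOneSpectrum (𝓞 F),
    (Fin r → Fin 3 → w.adicCompletion F) → Prop),
  (∃ ξ, SelK (fun i => sw (a i : F) (b i : F)) N k'
    (fun w : HeightOneSpectrum (𝓞 F) => w.adicCompletion F) X ξ) →
  ∃ η, SelK (fun i => sw (a i : F) (b i : F)) N F
    (fun w : HeightOneSpectrum (𝓞 F) => w.adicCompletion F) X η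

end Pool.Agent.N890.LP
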